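import Mathlib
import Pool.Agent.H95.VG.Targets1

/-!
# VG, module SMO: holomorphic functions of several variables are smooth
-/

open MeasureTheory Set Filter Topology Complex
open scoped ENNReal NNReal ContDiff Real Interval

namespace Pool.Agent.H65.VG

open Pool.Agent.H95.VG

variable {n : ℕ} {F : Type} [NormedAddCommGroup F] [NormedSpace ℂ F]

/-- radii around a point of an open set, adapted to a direction -/
lemma exists_radii {O : Set (V n)} (hO : IsOpen O) {z : V n} (hz : z ∈ O) (v : V n) :
    ∃ δ r : ℝ, 0 < δ ∧ 0 < r ∧ Metric.closedBall z (2 * δ) ⊆ O ∧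
      ∀ x ∈ Metric.closedBall z δ, ∀ ζ : ℂ, ‖ζ‖ ≤ r → x + ζ • v ∈ Metric.closedBall z (2 * δ) := by
  obtain ⟨ε, hε, hb⟩ := Metric.isOpen_iff.1 hO z hz
  refine ⟨ε / 4, ε / 4 / (‖v‖ + 1), by positivity, by positivity, ?_, ?_⟩
  · refine (Metric.closedBall_subset_ball ?_).trans hb
    linarith
  · intro x hx ζ hζ
    rw [Metric.mem_closedBall, dist_eq_norm] at hx ⊢
    have h1 : ‖ζ • v‖ ≤ ε / 4 := by
      rw [norm_smul]
      calc ‖ζ‖ * ‖v‖ ≤ ε / 4 / (‖v‖ + 1) * (‖v‖ + 1) := by
            apply mul_le_mul hζ _ (norm_nonneg _) (by positivity)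
            linarith
        _ = ε / 4 := by field_simp
    calc ‖x + ζ • v - z‖ = ‖(x - z) + ζ • v‖ := by congr 1; abel
      _ ≤ ‖x - z‖ + ‖ζ • v‖ := norm_add_le _ _
      _ ≤ ε / 4 + ε / 4 := add_le_add hx h1
      _ = 2 * (ε / 4) := by ring

/-- the coefficient in Cauchy's formula -/
noncomputable def cco (r θ : ℝ) : ℂ :=
  (2 * π * I : ℂ)⁻¹ * (deriv (circleMap 0 r) θ * ((circleMap 0 r θ) ^ 2)⁻¹)

lemma continuous_cco {r : ℝ} (hr : 0 < r) : Continuous (cco r) := by
  unfold cco
  refine continuous_const.mul ?_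
  refine Continuous.mul ?_ ?_
  · have h : deriv (circleMap 0 r) = fun θ => circleMap 0 r θ * I :=
      funext (fun θ => deriv_circleMap 0 r θ)
    rw [h]
    exact (continuous_circleMap 0 r).mul continuous_const
  · refine Continuous.inv₀ ((continuous_circleMap 0 r).pow 2) ?_
    intro θ
    exact pow_ne_zero 2 (circleMap_ne_center hr.ne')

/-- Cauchy's formula for the derivative in the direction `v` -/
lemma cauchy_dir [CompleteSpace F] {O : Set (V n)} {Y : V n → F} (hO : IsOpen O)
    (hY : DifferentiableOn ℂ Y O) (x v : V n) (r : ℝ) (hr : 0 < r)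
    (hb : ∀ ζ : ℂ, ‖ζ‖ ≤ r → x + ζ • v ∈ O) :
    fderiv ℂ Y x v = ∫ θ in (0 : ℝ)..2 * π, cco r θ • Y (x + circleMap 0 r θ • v) := by
  have hx : x ∈ O := by simpa using hb 0 (by simp [hr.le])
  have hl : ∀ ζ : ℂ, HasDerivAt (fun ζ : ℂ => x + ζ • v) v ζ := by
    intro ζ
    have := ((hasDerivAt_id ζ).smul_const v).const_add x
    simpa using this
  set U : Set ℂ := (fun ζ : ℂ => x + ζ • v) ⁻¹' O with hU
  have hcont : Continuous (fun ζ : ℂ => x + ζ • v) := by fun_prop
  have hUo : IsOpen U := hO.preimage hcont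
  have hsub : Metric.closedBall (0 : ℂ) r ⊆ U := by
    intro ζ hζ
    exact hb ζ (by simpa using hζ)
  have hd : DifferentiableOn ℂ (fun ζ : ℂ => Y (x + ζ • v)) U := by
    intro ζ hζ
    have h1 : DifferentiableAt ℂ Y (x + ζ • v) := (hY _ hζ).differentiableAt (hO.mem_nhds hζ)
    exact (h1.comp ζ (hl ζ).differentiableAt).differentiableWithinAt
  have key := two_pi_I_inv_smul_circleIntegral_sub_sq_inv_smul_of_differentiable hUo hsub hd
    (Metric.mem_ball_self hr)
  have hderiv : deriv (fun ζ : ℂ => Y (x + ζ • v)) 0 = fderiv ℂ Y x v := by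
    have h1 : HasFDerivAt Y (fderiv ℂ Y x) ((fun ζ : ℂ => x + ζ • v) 0) := by
      simpa using ((hY _ hx).differentiableAt (hO.mem_nhds hx)).hasFDerivAt
    have h2 := h1.comp_hasDerivAt (0 : ℂ) (hl 0)
    exact h2.deriv
  rw [← hderiv, ← key]
  unfold circleIntegral
  rw [← intervalIntegral.integral_smul]
  apply intervalIntegral.integral_congr
  intro θ _
  simp only [sub_zero, cco, smul_smul]

lemma continuous_arg (x v : V n) (r : ℝ) : Continuous (fun θ : ℝ => x + circleMap 0 r θ • v) := by
  have := continuous_circleMap 0 r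
  fun_prop

lemma norm_circleMap_zero' {r : ℝ} (hr : 0 < r) (θ : ℝ) : ‖circleMap 0 r θ‖ ≤ r := by
  rw [norm_circleMap_zero, abs_of_pos hr]

/-- the derivative of a holomorphic function is continuous -/
lemma continuousOn_fderiv [CompleteSpace F] {O : Set (V n)} {Y : V n → F} (hO : IsOpen O)
    (hY : DifferentiableOn ℂ Y O) : ContinuousOn (fderiv ℂ Y) O := by
  rw [continuousOn_clm_apply]
  intro v z hz
  apply ContinuousAt.continuousWithinAt
  obtain ⟨δ, r, hδ, hr, hb, hin⟩ := exists_radii hO hz v
  have hK : IsCompact (Metric.closedBall z (2 * δ)) := isCompact_closedBall _ _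
  obtain ⟨M, hM⟩ := hK.exists_bound_of_continuousOn (hY.continuousOn.mono hb)
  have hev : (fun x => ∫ θ in (0 : ℝ)..2 * π, cco r θ • Y (x + circleMap 0 r θ • v))
      =ᶠ[𝓝 z] fun x => fderiv ℂ Y x v := by
    filter_upwards [Metric.closedBall_mem_nhds z hδ] with x hx
    exact (cauchy_dir hO hY x v r hr fun ζ hζ => hb (hin x hx ζ hζ)).symm
  refine ContinuousAt.congr ?_ hev
  apply intervalIntegral.continuousAt_of_dominated_interval (bound := fun θ => ‖cco r θ‖ * M)
  · filter_upwards [Metric.closedBall_mem_nhds z hδ] with x hx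
    apply Continuous.aestronglyMeasurable
    refine (continuous_cco hr).smul ?_
    refine hY.continuousOn.comp_continuous (continuous_arg x v r) ?_
    intro θ
    exact hb (hin x hx _ (norm_circleMap_zero' hr θ))
  · filter_upwards [Metric.closedBall_mem_nhds z hδ] with x hx
    refine Eventually.of_forall fun θ _ => ?_
    rw [norm_smul]
    exact mul_le_mul_of_nonneg_left (hM _ (hin x hx _ (norm_circleMap_zero' hr θ))) (norm_nonneg _)
  · exact (((continuous_cco hr).norm).mul continuous_const).intervalIntegrable _ _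
  · refine Eventually.of_forall fun θ _ => ?_
    refine ContinuousAt.const_smul ?_ _
    have h1 : z + circleMap 0 r θ • v ∈ O :=
      hb (hin z (Metric.mem_closedBall_self hδ.le) _ (norm_circleMap_zero' hr θ))
    have h2 : ContinuousAt Y (z + circleMap 0 r θ • v) :=
      (hY.continuousOn).continuousAt (hO.mem_nhds h1)
    exact ContinuousAt.comp (f := fun x : V n => x + circleMap 0 r θ • v) h2 (by fun_prop)

/-- directional derivatives of holomorphic functions are holomorphic -/
lemma differentiableOn_dir [CompleteSpace F] {O : Set (V n)} {Y : V n → F} (hO : IsOpen O)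
    (hY : DifferentiableOn ℂ Y O) (v : V n) : DifferentiableOn ℂ (fun x => fderiv ℂ Y x v) O := by
  intro z hz
  apply DifferentiableAt.differentiableWithinAt
  obtain ⟨δ, r, hδ, hr, hb, hin⟩ := exists_radii hO hz v
  have hK : IsCompact (Metric.closedBall z (2 * δ)) := isCompact_closedBall _ _
  obtain ⟨M, hM⟩ := hK.exists_bound_of_continuousOn ((continuousOn_fderiv hO hY).mono hb)
  have hev : (fun x => ∫ θ in (0 : ℝ)..2 * π, cco r θ • Y (x + circleMap 0 r θ • v))
      =ᶠ[𝓝 z] fun x => fderiv ℂ Y x v := by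
    filter_upwards [Metric.closedBall_mem_nhds z hδ] with x hx
    exact (cauchy_dir hO hY x v r hr fun ζ hζ => hb (hin x hx ζ hζ)).symm
  have hd := intervalIntegral.hasFDerivAt_integral_of_dominated_of_fderiv_le (𝕜 := ℂ)
    (μ := volume) (a := 0) (b := 2 * π) (s := Metric.closedBall z δ) (x₀ := z)
    (F := fun x θ => cco r θ • Y (x + circleMap 0 r θ • v))
    (F' := fun x θ => cco r θ • fderiv ℂ Y (x + circleMap 0 r θ • v))
    (bound := fun θ => ‖cco r θ‖ * M) (Metric.closedBall_mem_nhds z hδ) ?_ ?_ ?_ ?_ ?_ ?_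
  · exact (hd.differentiableAt).congr_of_eventuallyEq hev.symm
  · filter_upwards [Metric.closedBall_mem_nhds z hδ] with x hx
    apply Continuous.aestronglyMeasurable
    refine (continuous_cco hr).smul ?_
    refine hY.continuousOn.comp_continuous (continuous_arg x v r) ?_
    intro θ
    exact hb (hin x hx _ (norm_circleMap_zero' hr θ))
  · apply Continuous.intervalIntegrable
    refine (continuous_cco hr).smul ?_
    refine hY.continuousOn.comp_continuous (continuous_arg z v r) ?_
    intro θ
    exact hb (hin z (Metric.mem_closedBall_self hδ.le) _ (norm_circleMap_zero' hr θ))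
  · apply Continuous.aestronglyMeasurable
    refine (continuous_cco hr).smul ?_
    refine (continuousOn_fderiv hO hY).comp_continuous (continuous_arg z v r) ?_
    intro θ
    exact hb (hin z (Metric.mem_closedBall_self hδ.le) _ (norm_circleMap_zero' hr θ))
  · refine Eventually.of_forall fun θ _ x hx => ?_
    rw [norm_smul]
    exact mul_le_mul_of_nonneg_left (hM _ (hin x hx _ (norm_circleMap_zero' hr θ))) (norm_nonneg _)
  · exact (((continuous_cco hr).norm).mul continuous_const).intervalIntegrable _ _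
  · refine Eventually.of_forall fun θ _ x hx => ?_
    refine HasFDerivAt.const_smul ?_ _
    have h1 : x + circleMap 0 r θ • v ∈ O := hb (hin x hx _ (norm_circleMap_zero' hr θ))
    have h2 : HasFDerivAt Y (fderiv ℂ Y (x + circleMap 0 r θ • v)) (x + circleMap 0 r θ • v) :=
      ((hY _ h1).differentiableAt (hO.mem_nhds h1)).hasFDerivAt
    have h3 : HasFDerivAt (fun x : V n => x + circleMap 0 r θ • v) (ContinuousLinearMap.id ℂ (V n)) x :=
      (hasFDerivAt_id x).add_const _
    have h4 := h2.comp x h3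
    simpa [Function.comp_def] using h4

lemma contDiffOn_nat [CompleteSpace F] {O : Set (V n)} (hO : IsOpen O) (k : ℕ) :
    ∀ Y : V n → F, DifferentiableOn ℂ Y O → ContDiffOn ℂ k Y O := by
  induction k with
  | zero =>
    intro Y hY
    exact contDiffOn_zero.2 hY.continuousOn
  | succ k ih =>
    intro Y hY
    have : ((k + 1 : ℕ) : WithTop ℕ∞) = (k : WithTop ℕ∞) + 1 := by push_cast; rfl
    rw [this, contDiffOn_succ_iff_fderiv_of_isOpen hO]
    refine ⟨hY, ?_, ?_⟩
    · intro h
      exact absurd h (WithTop.natCast_ne_top _ : (k : WithTop ℕ∞) ≠ ω)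
    · rw [contDiffOn_clm_apply]
      intro v
      exact ih _ (differentiableOn_dir hO hY v)

theorem smo : T_SMO := by
  intro n F _ _ _ O Y hO hY
  have h1 : ContDiffOn ℂ ∞ Y O := by
    rw [contDiffOn_infty]
    intro k
    exact contDiffOn_nat hO k Y hY
  exact ⟨h1, h1.restrict_scalars ℝ, fun v => differentiableOn_dir hO hY v⟩

end Pool.Agent.H65.VG
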