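import Mathlib
import Pool.Agent.H95.VG.Targets1
import Pool.Agent.H65.VG.SMO

/-!
# VG, module ARE: area formula with multiplicity
-/

open MeasureTheory Set Filter Topology
open scoped ENNReal NNReal ContDiff

namespace Pool.Agent.H65.VG

open Pool.Agent.H95.VG

variable {n : ℕ}

lemma det_jac_eq (Y : V n → V n) (z : V n) :
    (jac Y z).det = LinearMap.det (fderiv ℂ Y z : V n →ₗ[ℂ] V n) := by
  rw [← LinearMap.det_toMatrix']
  congr 1

/-- the real Jacobian determinant of a holomorphic map -/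
lemma det_real {Y : V n → V n} {z : V n} (h : DifferentiableAt ℂ Y z) :
    (fderiv ℝ Y z).det = ‖(jac Y z).det‖ ^ 2 := by
  rw [h.fderiv_restrictScalars ℝ]
  have h1 : ((fderiv ℂ Y z).restrictScalars ℝ).det
      = LinearMap.det ((fderiv ℂ Y z : V n →ₗ[ℂ] V n).restrictScalars ℝ) := rfl
  rw [h1, LinearMap.det_restrictScalars, ← det_jac_eq, Algebra.norm_complex_apply,
    Complex.normSq_eq_norm_sq]

lemma continuousOn_det {O : Set (V n)} {Y : V n → V n} (hO : IsOpen O)
    (hY : DifferentiableOn ℂ Y O) : ContinuousOn (fun z => (jac Y z).det) O := by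
  have h1 : Continuous (fun A : Matrix (Fin n) (Fin n) ℂ => A.det) := continuous_id.matrix_det
  refine h1.comp_continuousOn ?_
  refine continuousOn_pi.2 fun i => continuousOn_pi.2 fun j => ?_
  have h2 : ContinuousOn (fun z => fderiv ℂ Y z (ek j)) O :=
    (continuousOn_fderiv hO hY).clm_apply continuousOn_const
  exact (continuous_apply i).comp_continuousOn h2

/-- local injectivity where the Jacobian does not vanish -/
lemma exists_injOn {O : Set (V n)} {Y : V n → V n} (hO : IsOpen O)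
    (hY : DifferentiableOn ℂ Y O) {z : V n} (hz : z ∈ O) (hd : (jac Y z).det ≠ 0) :
    ∃ B : Set (V n), IsOpen B ∧ z ∈ B ∧ InjOn Y B := by
  have hc : ContDiffAt ℂ 1 Y z :=
    ((contDiffOn_nat hO 1 Y hY).contDiffAt (hO.mem_nhds hz))
  have hs : HasStrictFDerivAt Y (fderiv ℂ Y z) z := hc.hasStrictFDerivAt (by simp)
  have hu : (fderiv ℂ Y z).det ≠ 0 := by
    have : (fderiv ℂ Y z).det = (jac Y z).det := (det_jac_eq Y z).symm
    rw [this]
    exact hd
  set e : V n ≃L[ℂ] V n := (fderiv ℂ Y z).toContinuousLinearEquivOfDetNeZero hu with he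
  have hs' : HasStrictFDerivAt Y (e : V n →L[ℂ] V n) z := by
    have : (e : V n →L[ℂ] V n) = fderiv ℂ Y z := by
      ext v : 1
      rfl
    rw [this]
    exact hs
  refine ⟨(hs'.toOpenPartialHomeomorph Y).source, (hs'.toOpenPartialHomeomorph Y).open_source,
    hs'.mem_toOpenPartialHomeomorph_source, ?_⟩
  have := (hs'.toOpenPartialHomeomorph Y).injOn
  rwa [hs'.toOpenPartialHomeomorph_coe] at this

/-- a countable cover of the regular set by open sets of injectivity -/
lemma exists_cover {O : Set (V n)} {Y : V n → V n} (hO : IsOpen O)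
    (hY : DifferentiableOn ℂ Y O) :
    ∃ B : ℕ → Set (V n), (∀ i, IsOpen (B i)) ∧ (∀ i, InjOn Y (B i)) ∧
      {z ∈ O | (jac Y z).det ≠ 0} ⊆ ⋃ i, B i := by
  classical
  have hex : ∀ z : V n, ∃ B : Set (V n), IsOpen B ∧ InjOn Y B ∧
      (z ∈ O → (jac Y z).det ≠ 0 → z ∈ B) := by
    intro z
    by_cases h : z ∈ O ∧ (jac Y z).det ≠ 0
    · obtain ⟨B, h1, h2, h3⟩ := exists_injOn hO hY h.1 h.2
      exact ⟨B, h1, h3, fun _ _ => h2⟩
    · exact ⟨∅, isOpen_empty, injOn_empty _, fun h1 h2 => absurd ⟨h1, h2⟩ h⟩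
  choose B hB1 hB2 hB3 using hex
  obtain ⟨t, ht, htc, htcov⟩ := TopologicalSpace.countable_cover_nhdsWithin
    (s := {z ∈ O | (jac Y z).det ≠ 0}) (f := B)
    (fun x hx => mem_nhdsWithin_of_mem_nhds ((hB1 x).mem_nhds (hB3 x hx.1 hx.2)))
  by_cases hte : t.Nonempty
  · obtain ⟨u, hu⟩ := htc.exists_eq_range hte
    refine ⟨fun i => B (u i), fun i => hB1 _, fun i => hB2 _, ?_⟩
    refine htcov.trans ?_
    rw [hu]
    simp
  · rw [not_nonempty_iff_eq_empty] at hte
    subst hte
    refine ⟨fun _ => ∅, fun _ => isOpen_empty, fun _ => injOn_empty _, ?_⟩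
    simpa using htcov

/-- a countable measurable partition into pieces of injectivity -/
lemma exists_pieces {O S : Set (V n)} {Y : V n → V n} (hO : IsOpen O)
    (hY : DifferentiableOn ℂ Y O) (hS : MeasurableSet S) (hSO : S ⊆ O) :
    ∃ P : ℕ → Set (V n), (∀ i, MeasurableSet (P i)) ∧ (∀ i, InjOn Y (P i)) ∧
      Pairwise (Function.onFun Disjoint P) ∧ (⋃ i, P i) = {z ∈ S | (jac Y z).det ≠ 0} := by
  obtain ⟨B, hB1, hB2, hB3⟩ := exists_cover hO hY
  have hm : MeasurableSet {z ∈ S | (jac Y z).det ≠ 0} := by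
    have h1 : IsOpen (O ∩ (fun z => (jac Y z).det) ⁻¹' {0}ᶜ) :=
      (continuousOn_det hO hY).isOpen_inter_preimage hO isOpen_compl_singleton
    have h2 : {z ∈ S | (jac Y z).det ≠ 0} = S ∩ (O ∩ (fun z => (jac Y z).det) ⁻¹' {0}ᶜ) := by
      ext z
      constructor
      · rintro ⟨h3, h4⟩
        exact ⟨h3, hSO h3, h4⟩
      · rintro ⟨h3, _, h4⟩
        exact ⟨h3, h4⟩
    rw [h2]
    exact hS.inter h1.measurableSet
  refine ⟨fun i => {z ∈ S | (jac Y z).det ≠ 0} ∩ disjointed B i, ?_, ?_, ?_, ?_⟩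
  · intro i
    exact hm.inter (MeasurableSet.disjointed (fun j => (hB1 j).measurableSet) i)
  · intro i
    exact (hB2 i).mono (inter_subset_right.trans (disjointed_subset B i))
  · intro i j hij
    exact (disjoint_disjointed B hij).mono inter_subset_right inter_subset_right
  · rw [← inter_iUnion, iUnion_disjointed]
    apply inter_eq_left.2
    rintro z ⟨h1, h2⟩
    exact hB3 ⟨hSO h1, h2⟩

/-- the fibre sum over a piece of injectivity -/
lemma tsum_piece {P : Set (V n)} {Y : V n → V n} (hinj : InjOn Y P) (g : V n → ℝ≥0∞) (y : V n) :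
    ∑' z, (P ∩ Y ⁻¹' {y}).indicator g z
      = Function.extend (P.domRestrict Y) (P.domRestrict g) 0 y := by
  classical
  by_cases h : ∃ z ∈ P, Y z = y
  · obtain ⟨z, hz, rfl⟩ := h
    have h1 : Function.extend (P.domRestrict Y) (P.domRestrict g) 0 (Y z) = g z := by
      have := (injOn_iff_injective.1 hinj).extend_apply (P.domRestrict g) 0 ⟨z, hz⟩
      simpa using this
    rw [h1, tsum_eq_single z]
    · rw [indicator_of_mem]
      exact ⟨hz, rfl⟩
    · intro z' hz'
      rw [indicator_of_notMem]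
      rintro ⟨h2, h3⟩
      exact hz' (hinj h2 hz h3)
  · rw [Function.extend_apply']
    · simp only [Pi.zero_apply]
      rw [ENNReal.tsum_eq_zero]
      intro z
      rw [indicator_of_notMem]
      rintro ⟨h2, h3⟩
      exact h ⟨z, h2, h3⟩
    · rintro ⟨⟨z, hz⟩, h2⟩
      exact h ⟨z, hz, h2⟩

theorem are : T_ARE := by
  intro n O S Y g hO hY hS hSO hg
  obtain ⟨P, hP1, hP2, hP3, hP4⟩ := exists_pieces hO hY hS hSO
  have hPO : ∀ i, P i ⊆ O := by
    intro i z hz
    have : z ∈ {z ∈ S | (jac Y z).det ≠ 0} := hP4 ▸ mem_iUnion_of_mem i hz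
    exact hSO this.1
  have hder : ∀ i, ∀ x ∈ P i, HasFDerivWithinAt Y (fderiv ℝ Y x) (P i) x := by
    intro i x hx
    have h1 : DifferentiableAt ℂ Y x := (hY x (hPO i hx)).differentiableAt (hO.mem_nhds (hPO i hx))
    exact (h1.restrictScalars ℝ).hasFDerivAt.hasFDerivWithinAt
  have hemb : ∀ i, MeasurableEmbedding ((P i).domRestrict Y) := fun i =>
    measurableEmbedding_of_fderivWithin (hP1 i) (hder i) (hP2 i)
  set h : ℕ → V n → ℝ≥0∞ := fun i =>
    Function.extend ((P i).domRestrict Y) ((P i).domRestrict g) 0 with hh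
  have hhm : ∀ i, Measurable (h i) := fun i =>
    (hemb i).measurable_extend (hg.comp measurable_subtype_coe) measurable_zero
  -- the fibre sum
  have hsum : ∀ y, ∑' z : {z // z ∈ S ∧ Y z = y ∧ (jac Y z).det ≠ 0}, g z.1 = ∑' i, h i y := by
    intro y
    have h1 : ∀ z, {z | z ∈ S ∧ Y z = y ∧ (jac Y z).det ≠ 0}.indicator g z
        = ∑' i, (P i ∩ Y ⁻¹' {y}).indicator g z := by
      intro z
      by_cases hz : z ∈ {z | z ∈ S ∧ Y z = y ∧ (jac Y z).det ≠ 0}
      · rw [indicator_of_mem hz]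
        have hz' : z ∈ ⋃ i, P i := by
          rw [hP4]
          exact ⟨hz.1, hz.2.2⟩
        obtain ⟨i, hi⟩ := mem_iUnion.1 hz'
        rw [tsum_eq_single i]
        · rw [indicator_of_mem]
          exact ⟨hi, hz.2.1⟩
        · intro j hj
          rw [indicator_of_notMem]
          rintro ⟨hj', _⟩
          exact (Set.disjoint_left.1 (hP3 hj)) hj' hi
      · rw [indicator_of_notMem hz, eq_comm, ENNReal.tsum_eq_zero]
        intro i
        rw [indicator_of_notMem]
        rintro ⟨h2, h3⟩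
        have h4 : z ∈ {z ∈ S | (jac Y z).det ≠ 0} := hP4 ▸ mem_iUnion_of_mem i h2
        exact hz ⟨h4.1, h3, h4.2⟩
    have h2 : ∑' z : {z // z ∈ S ∧ Y z = y ∧ (jac Y z).det ≠ 0}, g z.1
        = ∑' z, {z | z ∈ S ∧ Y z = y ∧ (jac Y z).det ≠ 0}.indicator g z :=
      tsum_subtype {z | z ∈ S ∧ Y z = y ∧ (jac Y z).det ≠ 0} g
    rw [h2]
    simp_rw [h1]
    rw [ENNReal.tsum_comm]
    refine tsum_congr fun i => ?_
    exact tsum_piece (hP2 i) g y
  have hint : ∀ i, ∫⁻ y, h i y = ∫⁻ z in P i, g z * ENNReal.ofReal (‖(jac Y z).det‖ ^ 2) := by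
    intro i
    have h1 : ∫⁻ y, h i y = ∫⁻ y in Y '' P i, h i y := by
      rw [← lintegral_indicator (hP1 i |> fun hm =>
        measurable_image_of_fderivWithin hm (hder i) (hP2 i))]
      refine lintegral_congr fun y => ?_
      by_cases hy : y ∈ Y '' P i
      · rw [indicator_of_mem hy]
      · rw [indicator_of_notMem hy, hh]
        simp only
        rw [Function.extend_apply']
        · rfl
        · rintro ⟨⟨z, hz⟩, h2⟩
          exact hy ⟨z, hz, h2⟩
    rw [h1, lintegral_image_eq_lintegral_abs_det_fderiv_mul volume (hP1 i) (hder i) (hP2 i)]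
    refine setLIntegral_congr_fun (hP1 i) fun z hz => ?_
    have h2 : DifferentiableAt ℂ Y z := (hY z (hPO i hz)).differentiableAt (hO.mem_nhds (hPO i hz))
    have h3 : h i (Y z) = g z := by
      have := (injOn_iff_injective.1 (hP2 i)).extend_apply ((P i).domRestrict g) 0 ⟨z, hz⟩
      simpa using this
    rw [h3, det_real h2, abs_of_nonneg (by positivity), mul_comm]
  refine ⟨?_, ?_, ?_⟩
  · have : (fun y => ∑' z : {z // z ∈ S ∧ Y z = y ∧ (jac Y z).det ≠ 0}, g z.1)
        = fun y => ∑' i, h i y := funext hsum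
    rw [this]
    exact Measurable.tsum hhm
  · simp_rw [hsum]
    rw [lintegral_tsum fun i => (hhm i).aemeasurable]
    simp_rw [hint]
    rw [← lintegral_iUnion hP1 hP3, hP4]
    have h5 : MeasurableSet {z ∈ S | (jac Y z).det ≠ 0} := hP4 ▸ MeasurableSet.iUnion hP1
    rw [← lintegral_indicator hS, ← lintegral_indicator h5]
    refine lintegral_congr fun z => ?_
    by_cases hz : z ∈ S
    · by_cases hd : (jac Y z).det = 0
      · have h6 : z ∉ {z ∈ S | (jac Y z).det ≠ 0} := fun h => h.2 hd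
        rw [indicator_of_mem hz, indicator_of_notMem h6, hd]
        simp
      · have h6 : z ∈ {z ∈ S | (jac Y z).det ≠ 0} := ⟨hz, hd⟩
        rw [indicator_of_mem hz, indicator_of_mem h6]
    · have h6 : z ∉ {z ∈ S | (jac Y z).det ≠ 0} := fun h => hz h.1
      rw [indicator_of_notMem hz, indicator_of_notMem h6]
  · apply addHaar_image_eq_zero_of_det_fderivWithin_eq_zero (f' := fderiv ℝ Y) volume
    · intro x hx
      have hxO : x ∈ O := hSO hx.1
      have h1 : DifferentiableAt ℂ Y x := (hY x hxO).differentiableAt (hO.mem_nhds hxO)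
      exact (h1.restrictScalars ℝ).hasFDerivAt.hasFDerivWithinAt
    · intro x hx
      have hxO : x ∈ O := hSO hx.1
      have h1 : DifferentiableAt ℂ Y x := (hY x hxO).differentiableAt (hO.mem_nhds hxO)
      rw [det_real h1, hx.2]
      simp

end Pool.Agent.H65.VG
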