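import Mathlib
import Pool.Agent.H95.VG.Targets3

/-!
# VG, module ZER: zero sets of holomorphic functions are null
-/

open MeasureTheory Set Filter Topology
open scoped ENNReal NNReal ContDiff

namespace Pool.Agent.H65.VG

open Pool.Agent.H95.VG

variable {n : ℕ}

/-- zeros on a complex line are null -/
lemma line_null (c : V n) (r : ℝ) (g : V n → ℂ) (hg : DifferentiableOn ℂ g (Metric.ball c r))
    (z1 : V n) (h1 : z1 ∈ Metric.ball c r) (h2 : g z1 ≠ 0) (v : V n) :
    volume {ζ : ℂ | z1 + ζ • v ∈ Metric.ball c r ∧ g (z1 + ζ • v) = 0} = 0 := by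
  set U : Set ℂ := {ζ : ℂ | z1 + ζ • v ∈ Metric.ball c r} with hU
  have hcont : Continuous (fun ζ : ℂ => z1 + ζ • v) := by fun_prop
  have hUo : IsOpen U := Metric.isOpen_ball.preimage hcont
  have hUc : Convex ℝ U := by
    intro x hx y hy a b ha hb hab
    have h := (convex_ball c r) hx hy ha hb hab
    have h3 : a • (z1 + x • v) + b • (z1 + y • v) = z1 + (a • x + b • y) • v := by
      rw [smul_add, smul_add, add_smul]
      have : a • z1 + b • z1 = z1 := by rw [← add_smul, hab, one_smul]
      rw [smul_assoc, smul_assoc]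
      calc a • z1 + a • x • v + (b • z1 + b • y • v) = (a • z1 + b • z1) + (a • x • v + b • y • v) := by
            abel
        _ = z1 + (a • x • v + b • y • v) := by rw [this]
    rw [h3] at h
    exact h
  have hd : DifferentiableOn ℂ (fun ζ : ℂ => g (z1 + ζ • v)) U := by
    intro ζ hζ
    have h3 : DifferentiableAt ℂ g (z1 + ζ • v) :=
      (hg _ hζ).differentiableAt (Metric.isOpen_ball.mem_nhds hζ)
    have h4 : DifferentiableAt ℂ (fun ζ : ℂ => z1 + ζ • v) ζ := by fun_prop
    exact (h3.comp ζ h4).differentiableWithinAt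
  have ha : AnalyticOnNhd ℂ (fun ζ : ℂ => g (z1 + ζ • v)) U := hd.analyticOnNhd hUo
  have h0 : (0 : ℂ) ∈ U := by
    show z1 + (0 : ℂ) • v ∈ Metric.ball c r
    simpa using h1
  apply measure_null_of_locally_null
  intro w hw
  refine ⟨{w}, ?_, measure_singleton w⟩
  have h5 : ¬ ∃ᶠ z in 𝓝[≠] w, g (z1 + z • v) = 0 := by
    intro hf
    have h6 := ha.eqOn_zero_of_preconnected_of_frequently_eq_zero hUc.isPreconnected hw.1 hf
    have h7 := h6 h0
    apply h2
    simpa using h7
  rw [not_frequently] at h5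
  have h6 : ∀ᶠ z in 𝓝 w, z ≠ w → g (z1 + z • v) ≠ 0 := eventually_nhdsWithin_iff.1 h5
  have h7 : ∀ᶠ z in 𝓝[{ζ : ℂ | z1 + ζ • v ∈ Metric.ball c r ∧ g (z1 + ζ • v) = 0}] w, z ∈ ({w} : Set ℂ) := by
    filter_upwards [mem_nhdsWithin_of_mem_nhds h6, self_mem_nhdsWithin] with z hz hz'
    by_contra hne
    exact hz hne hz'.2
  exact h7

theorem zer : T_ZER := by
  intro n c r g hg ⟨z1, h1, h2⟩
  set W : Set (V n) := {z ∈ Metric.ball c r | g z = 0} with hW
  have hWm : MeasurableSet W := by
    have h3 : IsOpen (Metric.ball c r ∩ g ⁻¹' {0}ᶜ) :=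
      hg.continuousOn.isOpen_inter_preimage Metric.isOpen_ball isOpen_compl_singleton
    have h4 : W = Metric.ball c r \ (Metric.ball c r ∩ g ⁻¹' {0}ᶜ) := by
      ext z
      constructor
      · rintro ⟨h5, h6⟩
        exact ⟨h5, fun h7 => h7.2 h6⟩
      · rintro ⟨h5, h6⟩
        refine ⟨h5, ?_⟩
        by_contra h7
        exact h6 ⟨h5, h7⟩
    rw [h4]
    exact Metric.isOpen_ball.measurableSet.diff h3.measurableSet
  set Z : Set (V n) := (fun v => z1 + v) ⁻¹' W with hZ
  have hZm : MeasurableSet Z := hWm.preimage (measurable_const_add z1)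
  have hvol : volume Z = volume W := measure_preimage_add volume z1 W
  rw [← hvol]
  -- the two dimensional picture
  set s' : Set (V n × ℂ) := {p | p.2 • p.1 ∈ Z} with hs'
  have hs'm : MeasurableSet s' := by
    have : Measurable (fun p : V n × ℂ => p.2 • p.1) := by
      apply Continuous.measurable
      fun_prop
    exact hZm.preimage this
  have h3 : (volume : Measure (V n)).prod (volume : Measure ℂ) s' = 0 := by
    rw [Measure.measure_prod_null hs'm]
    refine Eventually.of_forall fun v => ?_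
    have := line_null c r g hg z1 h1 h2 v
    exact this
  have h4 : (volume : Measure ℂ).prod (volume : Measure (V n)) (Prod.swap ⁻¹' s') = 0 := by
    have h5 : MeasurePreserving Prod.swap ((volume : Measure ℂ).prod (volume : Measure (V n)))
      ((volume : Measure (V n)).prod (volume : Measure ℂ)) := Measure.measurePreserving_swap
    rw [h5.measure_preimage hs'm.nullMeasurableSet]
    exact h3
  have h5 := Measure.measure_ae_null_of_prod_null h4
  have h6 : ∀ᵐ ζ : ℂ, ζ ≠ 0 := by
    rw [ae_iff]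
    simp
  obtain ⟨ζ, h7, h8⟩ := (h5.and h6).exists
  have h9 : volume ((fun v : V n => ζ • v) ⁻¹' Z) = 0 := h7
  set L : V n →ₗ[ℝ] V n := (ζ • (LinearMap.id : V n →ₗ[ℂ] V n)).restrictScalars ℝ with hL
  have h10 : Z = L '' ((fun v : V n => ζ • v) ⁻¹' Z) := by
    ext z
    constructor
    · intro hz
      refine ⟨ζ⁻¹ • z, ?_, ?_⟩
      · show ζ • ζ⁻¹ • z ∈ Z
        rw [smul_inv_smul₀ h8]
        exact hz
      · show ζ • ζ⁻¹ • z = z
        rw [smul_inv_smul₀ h8]
    · rintro ⟨v, hv, rfl⟩
      exact hv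
  rw [h10, Measure.addHaar_image_linearMap, h9, mul_zero]

end Pool.Agent.H65.VG
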