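import Mathlib
import Pool.Agent.H95.VG.Targets3
import Pool.Agent.H65.VG.SMO

/-!
# VG, module WHL, part a: convolutions with smooth kernels, mean value property
-/

open MeasureTheory Set Filter Topology Complex
open scoped ENNReal NNReal ContDiff ComplexConjugate Convolution Real

namespace Pool.Agent.H65.VG

open Pool.Agent.H95.VG

variable {n : ℕ}

/-- convolution of a real kernel with a complex function -/
noncomputable def cv (k : V n → ℝ) (g : V n → ℂ) (x : V n) : ℂ := ∫ t, (k (x - t) : ℂ) * g t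

/-- the bilinear map used -/
noncomputable def LL0 : ℂ →L[ℝ] ℝ →L[ℝ] ℂ := (ContinuousLinearMap.lsmul ℝ ℝ).flip

lemma cv_eq (k : V n → ℝ) (g : V n → ℂ) : cv k g = g ⋆[LL0, volume] k := by
  ext x
  rw [convolution_def]
  unfold cv
  refine integral_congr_ae (Eventually.of_forall fun t => ?_)
  simp [LL0]

lemma cv_hasFDerivAt {k : V n → ℝ} {g : V n → ℂ} (hk : ContDiff ℝ 1 k) (hc : HasCompactSupport k)
    (hg : LocallyIntegrable g) (x : V n) :
    ∃ D : V n →L[ℝ] ℂ, HasFDerivAt (cv k g) D x ∧
      ∀ v, D v = ∫ t, ((fderiv ℝ k (x - t) v : ℝ) : ℂ) * g t := by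
  have h1 := hc.hasFDerivAt_convolution_right (μ := volume) LL0 hg hk x
  refine ⟨_, by rw [cv_eq]; exact h1, fun v => ?_⟩
  rw [convolution_precompR_apply LL0 hg (hc.fderiv (𝕜 := ℝ)) (hk.continuous_fderiv (by simp)),
    convolution_def]
  refine integral_congr_ae (Eventually.of_forall fun t => ?_)
  simp [LL0]

lemma cv_continuous {k : V n → ℝ} {g : V n → ℂ} (hk : ContDiff ℝ 1 k) (hc : HasCompactSupport k)
    (hg : LocallyIntegrable g) : Continuous (cv k g) := by
  rw [continuous_iff_continuousAt]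
  intro x
  obtain ⟨D, hD, _⟩ := cv_hasFDerivAt hk hc hg x
  exact hD.continuousAt

/-- a real differentiable function whose derivative is complex linear on the basis -/
lemma differentiableAt_of_dzb {h : V n → ℂ} {x : V n} (hd : DifferentiableAt ℝ h x)
    (h0 : ∀ i, dzb h x (ek i) = 0) : DifferentiableAt ℂ h x := by
  have h1 : ∀ i, fderiv ℝ h x (I • ek i) = I * fderiv ℝ h x (ek i) := by
    intro i
    have h2 := h0 i
    unfold dzb at h2
    have h3 : fderiv ℝ h x (ek i) + I * fderiv ℝ h x (I • ek i) = 0 := by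
      simpa using h2
    have h4 : I * (fderiv ℝ h x (ek i) + I * fderiv ℝ h x (I • ek i)) = 0 := by rw [h3, mul_zero]
    have h5 : I * (I * fderiv ℝ h x (I • ek i)) = - fderiv ℝ h x (I • ek i) := by
      rw [← mul_assoc, I_mul_I]; ring
    rw [mul_add, h5] at h4
    linear_combination -h4
  have h2 : ∀ i (a : ℂ), fderiv ℝ h x (a • ek i) = a * fderiv ℝ h x (ek i) := by
    intro i a
    have h3 : a • (ek i : V n) = a.re • ek i + a.im • (I • ek i) := by
      conv_lhs => rw [← re_add_im a]
      rw [add_smul, mul_smul]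
      rfl
    rw [h3, map_add, map_smul, map_smul, h1]
    conv_rhs => rw [← re_add_im a]
    simp only [real_smul]
    ring
  have h3 : ∀ v : V n, fderiv ℝ h x v = ∑ i, v i * fderiv ℝ h x (ek i) := by
    intro v
    have h4 : v = ∑ i, v i • (ek i : V n) := by
      conv_lhs => rw [← Finset.univ_sum_single v]
      refine Finset.sum_congr rfl fun i _ => ?_
      ext j
      by_cases hij : j = i
      · subst hij
        simp [ek]
      · simp [ek, hij]
    conv_lhs => rw [h4]
    rw [map_sum]
    exact Finset.sum_congr rfl fun i _ => h2 i (v i)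
  set D : V n →L[ℂ] ℂ := ∑ i, (fderiv ℝ h x (ek i)) • ContinuousLinearMap.proj i with hD
  have h4 : D.restrictScalars ℝ = fderiv ℝ h x := by
    ext v
    rw [h3 v]
    simp only [hD, ContinuousLinearMap.coe_restrictScalars', FunLike.coe_sum,
      Finset.sum_apply, FunLike.coe_smul, Pi.smul_apply, ContinuousLinearMap.proj_apply,
      smul_eq_mul]
    exact Finset.sum_congr rfl fun i _ => mul_comm _ _
  exact (hasFDerivAt_of_restrictScalars ℝ hd.hasFDerivAt h4).differentiableAt

/-- the weak Cauchy-Riemann equations -/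
def WCR (c : V n) (r : ℝ) (g : V n → ℂ) : Prop :=
  ∀ p : V n → ℂ, ContDiff ℝ ∞ p → HasCompactSupport p → tsupport p ⊆ Metric.ball c r →
    ∀ k, ∫ y, g y * dzb p y (ek k) = 0

/-- mollifications are holomorphic -/
lemma cv_hol {k : V n → ℝ} {g : V n → ℂ} {c : V n} {r ρ : ℝ} (hk : ContDiff ℝ ∞ k)
    (hs : ∀ t, k t ≠ 0 → t ∈ Metric.closedBall (0 : V n) ρ)
    (hg : LocallyIntegrable g) (hw : WCR c r g) {x : V n} (hx : Metric.closedBall x ρ ⊆ Metric.ball c r) :
    DifferentiableAt ℂ (cv k g) x := by
  have hc : HasCompactSupport k := by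
    apply HasCompactSupport.of_support_subset_isCompact (isCompact_closedBall (0 : V n) ρ)
    intro t ht
    exact hs t ht
  obtain ⟨D, hD, hDv⟩ := cv_hasFDerivAt (hk.of_le (by simp)) hc hg x
  apply differentiableAt_of_dzb hD.differentiableAt
  intro i
  -- the test function
  set p : V n → ℂ := fun t => (k (x - t) : ℂ) with hp
  have hpsm : ContDiff ℝ ∞ p := by
    have h1 : ContDiff ℝ ∞ (fun t : V n => k (x - t)) := hk.comp (contDiff_const.sub contDiff_id)
    exact ofRealCLM.contDiff.comp h1
  have hps : ∀ t, p t ≠ 0 → t ∈ Metric.closedBall x ρ := by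
    intro t ht
    have h1 : k (x - t) ≠ 0 := by
      intro h
      apply ht
      simp [hp, h]
    have h2 := hs _ h1
    rw [Metric.mem_closedBall, dist_eq_norm] at h2 ⊢
    rw [sub_zero] at h2
    rw [norm_sub_rev]
    exact h2
  have hpts : tsupport p ⊆ Metric.closedBall x ρ :=
    closure_minimal (fun t ht => hps t ht) Metric.isClosed_closedBall
  have hpc : HasCompactSupport p :=
    (isCompact_closedBall x ρ).of_isClosed_subset (isClosed_tsupport p) hpts
  have h0 := hw p hpsm hpc (hpts.trans hx) i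
  have hfd : ∀ t v, fderiv ℝ p t v = -((fderiv ℝ k (x - t) v : ℝ) : ℂ) := by
    intro t v
    have h1 : HasFDerivAt (fun t : V n => x - t) (-ContinuousLinearMap.id ℝ (V n)) t := by
      simpa using (hasFDerivAt_id (𝕜 := ℝ) t).const_sub x
    have h2 : HasFDerivAt k (fderiv ℝ k (x - t)) (x - t) :=
      ((hk.differentiable (by simp)) _).hasFDerivAt
    have h3 := (ofRealCLM.hasFDerivAt (x := k (x - t))).comp t (h2.comp t h1)
    have h4 : fderiv ℝ p t = ofRealCLM.comp ((fderiv ℝ k (x - t)).comp (-ContinuousLinearMap.id ℝ (V n))) :=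
      h3.fderiv
    rw [h4]
    simp
  unfold dzb
  rw [hD.fderiv, hDv, hDv]
  have hint : ∀ v, Integrable (fun t => ((fderiv ℝ k (x - t) v : ℝ) : ℂ) * g t) := by
    intro v
    have h1 : Continuous (fun t : V n => ((fderiv ℝ k (x - t) v : ℝ) : ℂ)) := by
      have h2 : Continuous (fderiv ℝ k) := hk.continuous_fderiv (by simp)
      have h3 : Continuous (fun t : V n => fderiv ℝ k (x - t)) := h2.comp (by fun_prop)
      exact continuous_ofReal.comp (h3.clm_apply continuous_const)
    have h2 : HasCompactSupport (fun t : V n => ((fderiv ℝ k (x - t) v : ℝ) : ℂ)) := by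
      have h3 : (fun t : V n => ((fderiv ℝ k (x - t) v : ℝ) : ℂ)) = fun t => -(fderiv ℝ p t v) := by
        ext t
        rw [hfd, neg_neg]
      rw [h3]
      have h4 : HasCompactSupport (fderiv ℝ p) := hpc.fderiv (𝕜 := ℝ)
      have h5 : HasCompactSupport (fun t => fderiv ℝ p t v) :=
        h4.comp_left (g := fun (L : V n →L[ℝ] ℂ) => L v) (by simp)
      exact h5.neg
    exact hg.integrable_smul_left_of_hasCompactSupport h1 h2
  have h5 : (∫ t, g t * dzb p t (ek i)) = -(((∫ t, ((fderiv ℝ k (x - t) (ek i) : ℝ) : ℂ) * g t) +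
      I * ∫ t, ((fderiv ℝ k (x - t) (I • ek i) : ℝ) : ℂ) * g t) / 2) := by
    have h6 : ∀ t, g t * dzb p t (ek i) = -(((fderiv ℝ k (x - t) (ek i) : ℝ) : ℂ) * g t +
        I * (((fderiv ℝ k (x - t) (I • ek i) : ℝ) : ℂ) * g t)) / 2 := by
      intro t
      unfold dzb
      rw [hfd, hfd]
      ring
    simp_rw [h6]
    rw [integral_div, integral_neg, integral_add (hint _) ((hint _).const_mul I),
      integral_const_mul]
    ring
  rw [h5] at h0
  simpa using h0

end Pool.Agent.H65.VG
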