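import Mathlib
import Pool.Agent.H65.VG.WHLa

/-!
# VG, module WHL, part b: the kernel, mean value property, commutation
-/

open MeasureTheory Set Filter Topology Complex
open scoped ENNReal NNReal ContDiff ComplexConjugate Convolution Real

namespace Pool.Agent.H65.VG

open Pool.Agent.H95.VG

variable {n : ℕ}

/-- a rotation invariant kernel -/
structure Kern (n : ℕ) (κ : V n → ℝ) (ρ : ℝ) : Prop where
  smooth : ContDiff ℝ ∞ κ
  supp : ∀ t, κ t ≠ 0 → t ∈ Metric.closedBall (0 : V n) ρ
  rot : ∀ (c : ℂ) (t : V n), ‖c‖ = 1 → κ (c • t) = κ t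
  one : ∫ t, κ t = 1

lemma Kern.compact {κ : V n → ℝ} {ρ : ℝ} (h : Kern n κ ρ) : HasCompactSupport κ :=
  HasCompactSupport.of_support_subset_isCompact (isCompact_closedBall (0 : V n) ρ)
    (fun t ht => h.supp t ht)

lemma contDiff_nsq : ContDiff ℝ ∞ (nsq (n := n)) := by
  unfold nsq
  apply ContDiff.sum
  intro i _
  exact (contDiff_apply ℝ ℂ i).norm_sq ℝ

lemma exists_kern (n : ℕ) (ρ : ℝ) (hρ : 0 < ρ) : ∃ κ : V n → ℝ, Kern n κ ρ := by
  set k : V n → ℝ := fun t => expNegInvGlue (ρ ^ 2 - nsq t) with hk
  have hsm : ContDiff ℝ ∞ k := expNegInvGlue.contDiff.comp (contDiff_const.sub contDiff_nsq)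
  have hsupp : ∀ t, k t ≠ 0 → t ∈ Metric.closedBall (0 : V n) ρ := by
    intro t ht
    have h1 : 0 < ρ ^ 2 - nsq t := by
      by_contra h
      exact ht (expNegInvGlue.zero_of_nonpos (not_lt.1 h))
    rw [Metric.mem_closedBall, dist_zero_right, pi_norm_le_iff_of_nonneg hρ.le]
    intro i
    have h2 : ‖t i‖ ^ 2 ≤ nsq t :=
      Finset.single_le_sum (f := fun i => ‖t i‖ ^ 2) (fun i _ => by positivity) (Finset.mem_univ i)
    have h3 : ‖t i‖ ^ 2 ≤ ρ ^ 2 := by linarith
    exact abs_le_of_sq_le_sq' h3 hρ.le |>.2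
  have hc : HasCompactSupport k :=
    HasCompactSupport.of_support_subset_isCompact (isCompact_closedBall (0 : V n) ρ)
      (fun t ht => hsupp t ht)
  have hpos : 0 < ∫ t, k t := by
    apply hsm.continuous.integral_pos_of_hasCompactSupport_nonneg_nonzero hc
      (fun t => expNegInvGlue.nonneg _) (x := 0)
    have h1 : 0 < ρ ^ 2 - nsq (0 : V n) := by
      simp only [nsq, Pi.zero_apply, norm_zero]
      simp
      positivity
    exact (expNegInvGlue.pos_of_pos h1).ne'
  refine ⟨fun t => (∫ t, k t)⁻¹ * k t, contDiff_const.mul hsm, ?_, ?_, ?_⟩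
  · intro t ht
    exact hsupp t (right_ne_zero_of_mul ht)
  · intro c t hc
    have h1 : nsq (c • t) = nsq t := by
      unfold nsq
      refine Finset.sum_congr rfl fun i _ => ?_
      rw [Pi.smul_apply, norm_smul, hc, one_mul]
    simp only [hk, h1]
  · rw [integral_const_mul, inv_mul_cancel₀ hpos.ne']

/-- multiplication by a unimodular number preserves Lebesgue measure -/
lemma mp_smul (c : ℂ) (hc : ‖c‖ = 1) : MeasurePreserving (fun t : V n => c • t) volume volume := by
  have hc0 : c ≠ 0 := by
    intro h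
    rw [h] at hc
    simp at hc
  set L : V n →ₗ[ℝ] V n := (c • (LinearMap.id : V n →ₗ[ℂ] V n)).restrictScalars ℝ with hL
  have hdet : LinearMap.det L = 1 := by
    rw [hL, LinearMap.det_restrictScalars, Algebra.norm_complex_apply, Complex.normSq_eq_norm_sq,
      LinearMap.det_smul, LinearMap.det_id, mul_one, norm_pow, hc]
    simp
  have hcont : Continuous (fun t : V n => c • t) := by fun_prop
  refine ⟨hcont.measurable, ?_⟩
  have h1 := Measure.map_linearMap_addHaar_eq_smul_addHaar (μ := (volume : Measure (V n)))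
    (f := L) (by rw [hdet]; exact one_ne_zero)
  rw [hdet] at h1
  have h2 : (⇑L : V n → V n) = fun t => c • t := rfl
  rw [h2] at h1
  rw [h1]
  simp

lemma cv_swap (k : V n → ℝ) (g : V n → ℂ) (x : V n) : cv k g x = ∫ t, (k t : ℂ) * g (x - t) := by
  unfold cv
  rw [← integral_sub_left_eq_self (fun t => (k t : ℂ) * g (x - t)) volume x]
  refine integral_congr_ae (Eventually.of_forall fun t => ?_)
  simp

/-- mean value property -/
lemma cv_mean {κ : V n → ℝ} {ρ : ℝ} (hκ : Kern n κ ρ) {h : V n → ℂ} (hc : Continuous h) (x : V n)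
    (hd : ∀ y ∈ Metric.closedBall x ρ, DifferentiableAt ℂ h y) : cv κ h x = h x := by
  rw [cv_swap]
  obtain ⟨M, hM⟩ := (isCompact_closedBall x ρ).exists_bound_of_continuousOn hc.continuousOn
  have hball : ∀ (c : ℂ) (t : V n), ‖c‖ ≤ 1 → t ∈ Metric.closedBall (0 : V n) ρ →
      x - c • t ∈ Metric.closedBall x ρ := by
    intro c t hc ht
    rw [Metric.mem_closedBall, dist_eq_norm] at ht ⊢
    rw [sub_zero] at ht
    have : x - c • t - x = -(c • t) := by abel
    rw [this, norm_neg, norm_smul]
    calc ‖c‖ * ‖t‖ ≤ 1 * ‖t‖ := mul_le_mul_of_nonneg_right hc (norm_nonneg _)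
      _ ≤ ρ := by rw [one_mul]; exact ht
  -- rotation invariance
  have hrot : ∀ θ : ℝ, ∫ t, (κ t : ℂ) * h (x - t)
      = ∫ t, (κ t : ℂ) * h (x - circleMap 0 1 θ • t) := by
    intro θ
    have hc1 : ‖circleMap 0 1 θ‖ = 1 := by simp
    have hmp := mp_smul (n := n) (circleMap 0 1 θ) hc1
    have hc0 : circleMap 0 1 θ ≠ 0 := by
      intro h
      rw [h] at hc1
      simp at hc1
    have hemb : MeasurableEmbedding (fun t : V n => circleMap 0 1 θ • t) :=
      (Homeomorph.smulOfNeZero (circleMap 0 1 θ) hc0).measurableEmbedding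
    rw [← hmp.integral_comp hemb]
    refine integral_congr_ae (Eventually.of_forall fun t => ?_)
    simp only
    rw [hκ.rot _ _ hc1]
  have havg : ∫ t, (κ t : ℂ) * h (x - t)
      = (2 * π)⁻¹ • ∫ θ in (0 : ℝ)..2 * π, ∫ t, (κ t : ℂ) * h (x - circleMap 0 1 θ • t) := by
    have h1 : ∫ θ in (0 : ℝ)..2 * π, ∫ t, (κ t : ℂ) * h (x - circleMap 0 1 θ • t)
        = ∫ θ in (0 : ℝ)..2 * π, (∫ t, (κ t : ℂ) * h (x - t)) := by
      apply intervalIntegral.integral_congr
      intro θ _
      exact (hrot θ).symm
    rw [h1, intervalIntegral.integral_const, sub_zero, smul_smul, inv_mul_cancel₀, one_smul]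
    positivity
  have hswap : ∫ θ in (0 : ℝ)..2 * π, ∫ t, (κ t : ℂ) * h (x - circleMap 0 1 θ • t)
      = ∫ t, ∫ θ in (0 : ℝ)..2 * π, (κ t : ℂ) * h (x - circleMap 0 1 θ • t) := by
    rw [intervalIntegral.integral_of_le (by positivity)]
    rw [integral_integral_swap]
    · refine integral_congr_ae (Eventually.of_forall fun t => ?_)
      simp only
      rw [intervalIntegral.integral_of_le (by positivity)]
    · have hI : Integrable (fun p : ℝ × V n => ‖κ p.2‖ * M)
          ((volume.restrict (Ioc 0 (2 * π))).prod volume) := by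
        have h1 : Integrable (fun t : V n => ‖κ t‖ * M) :=
          ((hκ.smooth.continuous.integrable_of_hasCompactSupport hκ.compact).norm).mul_const M
        exact h1.comp_snd (volume.restrict (Ioc 0 (2 * π)))
      refine hI.mono' ?_ (Eventually.of_forall fun p => ?_)
      · apply Continuous.aestronglyMeasurable
        have h1 : Continuous (fun p : ℝ × V n => circleMap 0 1 p.1) :=
          (continuous_circleMap 0 1).comp continuous_fst
        have h2 : Continuous (fun p : ℝ × V n => h (x - circleMap 0 1 p.1 • p.2)) :=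
          hc.comp (continuous_const.sub (h1.smul continuous_snd))
        exact (continuous_ofReal.comp (hκ.smooth.continuous.comp continuous_snd)).mul h2
      · simp only [Function.uncurry]
        by_cases hz : κ p.2 = 0
        · rw [hz]
          simp
        · rw [norm_mul, norm_real]
          apply mul_le_mul_of_nonneg_left _ (norm_nonneg _)
          exact hM _ (hball _ _ (by simp) (hκ.supp _ hz))
  rw [havg, hswap, ← integral_smul]
  have hpt : ∀ t, (2 * π)⁻¹ • ∫ θ in (0 : ℝ)..2 * π, (κ t : ℂ) * h (x - circleMap 0 1 θ • t)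
      = (κ t : ℂ) * h x := by
    intro t
    by_cases hz : κ t = 0
    · rw [hz]
      simp
    · have ht := hκ.supp t hz
      have h1 : Real.circleAverage (fun ζ : ℂ => h (x - ζ • t)) 0 1 = h (x - (0 : ℂ) • t) := by
        apply circleAverage_of_differentiable_on_off_countable countable_empty
        · exact (hc.comp (by fun_prop)).continuousOn
        · intro ζ hζ
          have hζ' : ‖ζ‖ ≤ 1 := by
            have := hζ.1
            rw [abs_one, Metric.mem_ball, dist_zero_right] at this
            exact this.le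
          have h2 := hd _ (hball ζ t hζ' ht)
          exact DifferentiableAt.comp (g := h) (f := fun ζ : ℂ => x - ζ • t) ζ h2 (by fun_prop)
      rw [Real.circleAverage_def, zero_smul, sub_zero] at h1
      rw [← h1, intervalIntegral.integral_const_mul]
      simp only [real_smul]
      ring
  simp_rw [hpt]
  rw [integral_mul_const, integral_complex_ofReal, hκ.one]
  simp

/-- the two convolutions commute -/
lemma cv_comm {κ φ : V n → ℝ} {g : V n → ℂ} (hκ : Continuous κ) (hκc : HasCompactSupport κ)
    (hφ : Continuous φ) (hφc : HasCompactSupport φ) (hg : Integrable g) (x : V n) :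
    cv κ (cv φ g) x = cv φ (cv κ g) x := by
  have key : ∀ (κ φ : V n → ℝ), Continuous κ → HasCompactSupport κ → Continuous φ →
      HasCompactSupport φ → cv κ (cv φ g) x = ∫ u, (∫ t, (κ t : ℂ) * (φ (x - u - t) : ℂ)) * g u := by
    intro κ φ hκ hκc hφ hφc
    rw [cv_swap]
    unfold cv
    have h1 : ∀ t, (κ t : ℂ) * ∫ u, (φ (x - t - u) : ℂ) * g u
        = ∫ u, (κ t : ℂ) * ((φ (x - t - u) : ℂ) * g u) := by
      intro t
      rw [integral_const_mul]
    simp_rw [h1]
    rw [integral_integral_swap]
    · refine integral_congr_ae (Eventually.of_forall fun u => ?_)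
      simp only
      rw [← integral_mul_const]
      refine integral_congr_ae (Eventually.of_forall fun t => ?_)
      simp only
      have : x - t - u = x - u - t := by abel
      rw [this]
      ring
    · obtain ⟨M, hM⟩ := hφc.exists_bound_of_continuous hφ
      have hI : Integrable (fun p : V n × V n => (κ p.1 : ℂ) * g p.2) (volume.prod volume) :=
        ((hκ.integrable_of_hasCompactSupport hκc).ofReal).mul_prod hg
      have hI2 := hI.bdd_mul (c := M) (f := fun p : V n × V n => (φ (x - p.1 - p.2) : ℂ)) ?_ ?_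
      · refine hI2.congr (Eventually.of_forall fun p => ?_)
        simp only [Function.uncurry]
        ring
      · apply Continuous.aestronglyMeasurable
        exact continuous_ofReal.comp (hφ.comp (by fun_prop))
      · refine Eventually.of_forall fun p => ?_
        rw [norm_real]
        exact hM _
  rw [key κ φ hκ hκc hφ hφc, key φ κ hφ hφc hκ hκc]
  refine integral_congr_ae (Eventually.of_forall fun u => ?_)
  simp only
  congr 1
  rw [← integral_sub_left_eq_self (fun t => (φ t : ℂ) * (κ (x - u - t) : ℂ)) volume (x - u)]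
  refine integral_congr_ae (Eventually.of_forall fun t => ?_)
  simp only
  rw [sub_sub_cancel, mul_comm]

end Pool.Agent.H65.VG
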