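import Mathlib
import Pool.Agent.H65.VG.WHLb

/-!
# VG, module WHL: weakly holomorphic functions are holomorphic
-/

open MeasureTheory Set Filter Topology Complex
open scoped ENNReal NNReal ContDiff ComplexConjugate Convolution Real

namespace Pool.Agent.H65.VG

open Pool.Agent.H95.VG

variable {n : ℕ}

/-- bump functions shrinking to the origin -/
noncomputable def bmp (n : ℕ) (j : ℕ) : ContDiffBump (0 : V n) :=
  ⟨1 / (2 * (j + 1)), 1 / (j + 1), by positivity, by
    apply one_div_lt_one_div_of_lt
    · positivity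
    · have : (0 : ℝ) ≤ j := by positivity
      linarith⟩

lemma bmp_rOut (j : ℕ) : (bmp n j).rOut = 1 / ((j : ℝ) + 1) := rfl

lemma bmp_tendsto : Tendsto (fun j => (bmp n j).rOut) atTop (𝓝 0) := by
  simp_rw [bmp_rOut]
  exact tendsto_one_div_add_atTop_nhds_zero_nat

lemma bmp_ratio (j : ℕ) : (bmp n j).rOut ≤ 2 * (bmp n j).rIn := by
  have h1 : (bmp n j).rIn = 1 / (2 * ((j : ℝ) + 1)) := rfl
  rw [h1, bmp_rOut]
  apply le_of_eq
  field_simp

/-- the normalised kernel -/
noncomputable def bk (n : ℕ) (j : ℕ) : V n → ℝ := (bmp n j).normed volume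

lemma bk_smooth (j : ℕ) : ContDiff ℝ ∞ (bk n j) := (bmp n j).contDiff_normed

lemma bk_supp (j : ℕ) (t : V n) (ht : bk n j t ≠ 0) : t ∈ Metric.closedBall (0 : V n) (1 / ((j : ℝ) + 1)) := by
  have h1 : t ∈ Function.support ((bmp n j).normed volume) := ht
  rw [(bmp n j).support_normed_eq] at h1
  exact Metric.ball_subset_closedBall h1

lemma bk_compact (j : ℕ) : HasCompactSupport (bk n j) := (bmp n j).hasCompactSupport_normed

lemma cv_bk (j : ℕ) (g : V n → ℂ) (x : V n) :
    cv (bk n j) g x = ((bmp n j).normed volume ⋆[ContinuousLinearMap.lsmul ℝ ℝ, volume] g) x := by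
  rw [convolution_lsmul_swap]
  unfold cv bk
  refine integral_congr_ae (Eventually.of_forall fun t => ?_)
  simp

/-- the limit of the mollifications -/
noncomputable def lim (g : V n → ℂ) (z : V n) : ℂ := limUnder atTop (fun j => cv (bk n j) g z)

lemma lim_ae {g : V n → ℂ} (hg : LocallyIntegrable g) : ∀ᵐ x, lim g x = g x := by
  have h := ContDiffBump.ae_convolution_tendsto_right_of_locallyIntegrable (μ := (volume : Measure (V n)))
    (φ := fun j => bmp n j) (l := atTop) (K := 2) bmp_tendsto (Eventually.of_forall bmp_ratio) hg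
  filter_upwards [h] with x hx
  unfold lim
  apply Tendsto.limUnder_eq
  simp_rw [cv_bk]
  exact hx

lemma lim_local {g : V n → ℂ} {c : V n} {r : ℝ} (hg : Integrable g) (hw : WCR c r g) {z : V n}
    (hz : z ∈ Metric.ball c r) : DifferentiableAt ℂ (lim g) z := by
  obtain ⟨ε, hε, hb⟩ := Metric.isOpen_iff.1 Metric.isOpen_ball z hz
  set δ : ℝ := ε / 4 with hδ
  have hδ0 : 0 < δ := by positivity
  obtain ⟨κ, hκ⟩ := exists_kern n δ hδ0
  have hsub : ∀ z' ∈ Metric.closedBall z δ, ∀ y ∈ Metric.closedBall z' δ,
      Metric.closedBall y δ ⊆ Metric.ball c r := by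
    intro z' hz' y hy w hw
    apply hb
    rw [Metric.mem_ball]
    rw [Metric.mem_closedBall] at hz' hy hw
    calc dist w z ≤ dist w y + dist y z' + dist z' z := dist_triangle4 _ _ _ _
      _ ≤ δ + δ + δ := by linarith
      _ < ε := by linarith
  have hself : ∀ z' : V n, z' ∈ Metric.closedBall z' δ := fun z' => Metric.mem_closedBall_self hδ0.le
  have hcont : Continuous (cv κ g) :=
    cv_continuous (hκ.smooth.of_le (by simp)) hκ.compact hg.locallyIntegrable
  have htend : ∀ z' ∈ Metric.closedBall z δ, Tendsto (fun j => cv (bk n j) g z') atTop (𝓝 (cv κ g z')) := by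
    intro z' hz'
    have h1 : Tendsto (fun j => cv (bk n j) (cv κ g) z') atTop (𝓝 (cv κ g z')) := by
      simp_rw [cv_bk]
      exact ContDiffBump.convolution_tendsto_right_of_continuous bmp_tendsto hcont z'
    refine h1.congr' ?_
    have h2 : ∀ᶠ j in atTop, (bmp n j).rOut < δ := bmp_tendsto.eventually (gt_mem_nhds hδ0)
    filter_upwards [h2] with j hj
    rw [bmp_rOut] at hj
    have h3 : ∀ y ∈ Metric.closedBall z' δ, DifferentiableAt ℂ (cv (bk n j) g) y := by
      intro y hy
      apply cv_hol (bk_smooth j) (ρ := δ) _ hg.locallyIntegrable hw (hsub z' hz' y hy)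
      intro t ht
      exact Metric.closedBall_subset_closedBall hj.le (bk_supp j t ht)
    have h4 : Continuous (cv (bk n j) g) :=
      cv_continuous ((bk_smooth j).of_le (by simp)) (bk_compact j) hg.locallyIntegrable
    rw [← cv_comm hκ.smooth.continuous hκ.compact (bk_smooth j).continuous (bk_compact j) hg z']
    exact cv_mean hκ h4 z' h3
  have heq : lim g =ᶠ[𝓝 z] cv κ g := by
    filter_upwards [Metric.closedBall_mem_nhds z hδ0] with z' hz'
    exact (htend z' hz').limUnder_eq
  refine DifferentiableAt.congr_of_eventuallyEq ?_ heq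
  exact cv_hol hκ.smooth hκ.supp hg.locallyIntegrable hw
    (hsub z (Metric.mem_closedBall_self hδ0.le) z (hself z))

/-- real valued holomorphic functions on a ball are constant -/
lemma const_of_real {G : V n → ℂ} {c : V n} {r : ℝ} (hG : DifferentiableOn ℂ G (Metric.ball c r))
    (him : ∀ z ∈ Metric.ball c r, (G z).im = 0) : ∀ z ∈ Metric.ball c r, G z = G c := by
  intro z hz
  have hc : c ∈ Metric.ball c r := Metric.mem_ball_self (Metric.pos_of_mem_ball hz)
  have hfd : ∀ y ∈ Metric.ball c r, fderivWithin ℂ G (Metric.ball c r) y = 0 := by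
    intro y hy
    rw [fderivWithin_of_isOpen Metric.isOpen_ball hy]
    have hd : DifferentiableAt ℂ G y := (hG y hy).differentiableAt (Metric.isOpen_ball.mem_nhds hy)
    have h1 : HasFDerivAt (fun x => (G x).im) (imCLM.comp ((fderiv ℂ G y).restrictScalars ℝ)) y :=
      imCLM.hasFDerivAt.comp y (hd.hasFDerivAt.restrictScalars ℝ)
    have h2 : HasFDerivAt (fun x => (G x).im) (0 : V n →L[ℝ] ℝ) y := by
      refine (hasFDerivAt_const (0 : ℝ) y).congr_of_eventuallyEq ?_
      filter_upwards [Metric.isOpen_ball.mem_nhds hy] with x hx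
      exact him x hx
    have h3 := h1.unique h2
    have h4 : ∀ v, (fderiv ℂ G y v).im = 0 := by
      intro v
      have := congrArg (fun L : V n →L[ℝ] ℝ => L v) h3
      simpa using this
    ext v
    have h5 : (fderiv ℂ G y v).re = 0 := by
      have := h4 (I • v)
      rw [map_smul] at this
      simpa using this
    apply Complex.ext
    · simpa using h5
    · simpa using h4 v
  exact (convex_ball c r).is_const_of_fderivWithin_eq_zero hG hfd hz hc

theorem whl : T_WHL := by
  intro n c r g hr hg hw
  set g0 : V n → ℂ := (Metric.ball c r).indicator g with hg0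
  have hg0i : Integrable g0 := (integrable_indicator_iff Metric.isOpen_ball.measurableSet).2 hg
  have hw0 : WCR c r g0 := by
    intro p hp hpc hps k
    rw [← hw p hp hpc hps k, ← integral_indicator Metric.isOpen_ball.measurableSet]
    refine integral_congr_ae (Eventually.of_forall fun y => ?_)
    simp only [hg0]
    by_cases hy : y ∈ Metric.ball c r
    · rw [indicator_of_mem hy, indicator_of_mem hy]
    · rw [indicator_of_notMem hy, indicator_of_notMem hy, zero_mul]
  have hhol : DifferentiableOn ℂ (lim g0) (Metric.ball c r) := fun z hz =>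
    (lim_local hg0i hw0 hz).differentiableWithinAt
  have hae : ∀ᵐ y ∂(volume.restrict (Metric.ball c r)), g y = lim g0 y := by
    rw [ae_restrict_iff' Metric.isOpen_ball.measurableSet]
    filter_upwards [lim_ae hg0i.locallyIntegrable] with y hy hyb
    rw [hy, hg0, indicator_of_mem hyb]
  refine ⟨⟨lim g0, hhol, hae⟩, ?_⟩
  intro him
  have h1 : (fun y => (lim g0 y).im) =ᵐ[volume.restrict (Metric.ball c r)] fun _ => 0 := by
    filter_upwards [hae] with y hy
    rw [← hy]
    exact him y
  have h2 : EqOn (fun y => (lim g0 y).im) (fun _ => 0) (Metric.ball c r) := by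
    apply Measure.eqOn_open_of_ae_eq h1 Metric.isOpen_ball
    · exact continuous_im.comp_continuousOn hhol.continuousOn
    · exact continuousOn_const
  have h3 := const_of_real hhol h2
  refine ⟨(lim g0 c).re, ?_⟩
  have h4 : ∀ᵐ y ∂(volume.restrict (Metric.ball c r)), y ∈ Metric.ball c r :=
    ae_restrict_mem Metric.isOpen_ball.measurableSet
  filter_upwards [hae, h4] with y hy hyb
  rw [hy, h3 y hyb]
  apply Complex.ext
  · simp
  · rw [ofReal_im]
    exact h2 (Metric.mem_ball_self hr)

end Pool.Agent.H65.VG
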