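import Mathlib
import Pool.Agent.H95.VG.Targets2
import Pool.Agent.H65.VG.ARE

/-!
# VG, module GRI, part a: uniform families of local inverses
-/

open MeasureTheory Set Filter Topology
open scoped ENNReal NNReal ContDiff

namespace Pool.Agent.H65.VG

open Pool.Agent.H95.VG

variable {n : ℕ}

/-- the derivative is an equivalence where the Jacobian does not vanish -/
lemma exists_equiv {O : Set (V n)} {Y : V n → V n} (hO : IsOpen O)
    (hY : DifferentiableOn ℂ Y O) {z : V n} (hz : z ∈ O) (hd : (jac Y z).det ≠ 0) :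
    ∃ e : V n ≃L[ℂ] V n, HasStrictFDerivAt Y (e : V n →L[ℂ] V n) z := by
  have hc : ContDiffAt ℂ 1 Y z :=
    ((contDiffOn_nat hO 1 Y hY).contDiffAt (hO.mem_nhds hz))
  have hs : HasStrictFDerivAt Y (fderiv ℂ Y z) z := hc.hasStrictFDerivAt (by simp)
  have hu : (fderiv ℂ Y z).det ≠ 0 := by
    have : (fderiv ℂ Y z).det = (jac Y z).det := (det_jac_eq Y z).symm
    rw [this]
    exact hd
  refine ⟨(fderiv ℂ Y z).toContinuousLinearEquivOfDetNeZero hu, ?_⟩
  have : (((fderiv ℂ Y z).toContinuousLinearEquivOfDetNeZero hu : V n ≃L[ℂ] V n) : V n →L[ℂ] V n)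
      = fderiv ℂ Y z := by
    ext v : 1
    rfl
  rw [this]
  exact hs

lemma isOpen_reg {O : Set (V n)} {Y : V n → V n} (hO : IsOpen O)
    (hY : DifferentiableOn ℂ Y O) : IsOpen {z ∈ O | (jac Y z).det ≠ 0} := by
  have h1 : IsOpen (O ∩ (fun z => (jac Y z).det) ⁻¹' {0}ᶜ) :=
    (continuousOn_det hO hY).isOpen_inter_preimage hO isOpen_compl_singleton
  exact h1

/-- a right inverse with values in a ball of injectivity is differentiable -/
lemma diff_inverse {O : Set (V n)} {F : V n → V n} (hO : IsOpen O)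
    (hF : DifferentiableOn ℂ F O) {s : V n} {r : ℝ}
    (hinj : InjOn F (Metric.ball s r)) (hsub : Metric.ball s r ⊆ {z ∈ O | (jac F z).det ≠ 0})
    {B : Set (V n)} (hB : IsOpen B) {G : V n → V n} (hG1 : ∀ x ∈ B, G x ∈ Metric.ball s r)
    (hG2 : ∀ x ∈ B, F (G x) = x) : DifferentiableOn ℂ G B := by
  intro x hx
  have hw := hG1 x hx
  obtain ⟨e, he⟩ := exists_equiv hO hF (hsub hw).1 (hsub hw).2
  have hcont : ContinuousAt G x := by
    rw [ContinuousAt, tendsto_def]
    intro N hN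
    have hN' : N ∩ Metric.ball s r ∈ 𝓝 (G x) := inter_mem hN (Metric.isOpen_ball.mem_nhds hw)
    have h1 : F '' (N ∩ Metric.ball s r) ∈ 𝓝 (F (G x)) := by
      rw [← he.map_nhds_eq_of_equiv]
      exact image_mem_map hN'
    rw [hG2 x hx] at h1
    filter_upwards [h1, hB.mem_nhds hx] with y hy hyB
    obtain ⟨w', ⟨hw1, hw2⟩, hw3⟩ := hy
    have h2 : G y = w' := hinj (hG1 y hyB) hw2 (by rw [hG2 y hyB, hw3])
    rw [mem_preimage, h2]
    exact hw1
  have h3 : HasFDerivAt G (e.symm : V n →L[ℂ] V n) x := by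
    apply HasFDerivAt.of_local_left_inverse hcont he.hasFDerivAt
    filter_upwards [hB.mem_nhds hx] with y hy
    exact hG2 y hy
  exact h3.differentiableAt.differentiableWithinAt

lemma exists_lower (t : Finset (V n)) (η : V n → ℝ) (hη : ∀ z, 0 < η z) :
    ∃ ε : ℝ, 0 < ε ∧ ∀ z ∈ t, ε ≤ η z := by
  classical
  induction t using Finset.induction_on with
  | empty => exact ⟨1, one_pos, by simp⟩
  | insert a t ha ih =>
    obtain ⟨ε, h1, h2⟩ := ih
    refine ⟨min ε (η a), lt_min h1 (hη a), ?_⟩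
    intro z hz
    rcases Finset.mem_insert.1 hz with rfl | hz
    · exact min_le_right _ _
    · exact (min_le_left _ _).trans (h2 z hz)

lemma exists_inverses {O : Set (V n)} {F : V n → V n} (hO : IsOpen O)
    (hF : DifferentiableOn ℂ F O) {K : Set (V n)} (hK : IsCompact K)
    (hKO : K ⊆ {z ∈ O | (jac F z).det ≠ 0}) (ρ₀ : ℝ) (hρ₀ : 0 < ρ₀) :
    ∃ (ρ r : ℝ) (G : V n → V n → V n), 0 < ρ ∧ ρ ≤ ρ₀ ∧ 0 < r ∧
      (∀ s ∈ K, InjOn F (Metric.ball s (2 * r))) ∧
      ∀ s ∈ K, DifferentiableOn ℂ (G s) (Metric.ball (F s) (3 * ρ)) ∧ G s (F s) = s ∧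
        ∀ x ∈ Metric.ball (F s) (3 * ρ), G s x ∈ O ∧ G s x ∈ Metric.ball s r ∧ F (G s x) = x := by
  classical
  -- stage one: uniform injectivity
  have hex : ∀ z : V n, ∃ B : Set (V n), IsOpen B ∧ InjOn F B ∧
      (z ∈ K → z ∈ B) := by
    intro z
    by_cases h : z ∈ K
    · obtain ⟨B, h1, h2, h3⟩ := exists_injOn hO hF (hKO h).1 (hKO h).2
      exact ⟨B, h1, h3, fun _ => h2⟩
    · exact ⟨∅, isOpen_empty, injOn_empty _, fun h1 => absurd h1 h⟩
  choose B hB1 hB2 hB3 using hex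
  have hreg := isOpen_reg hO hF
  obtain ⟨lam, hlam, hleb⟩ := lebesgue_number_lemma_of_metric hK
    (c := fun z => B z ∩ {z ∈ O | (jac F z).det ≠ 0}) (fun z => (hB1 z).inter hreg)
    (fun z hz => mem_iUnion.2 ⟨z, hB3 z hz, hKO hz⟩)
  have hinj : ∀ s ∈ K, InjOn F (Metric.ball s lam) := by
    intro s hs
    obtain ⟨z, hz⟩ := hleb s hs
    exact (hB2 z).mono (hz.trans inter_subset_left)
  have hsub : ∀ s ∈ K, Metric.ball s lam ⊆ {z ∈ O | (jac F z).det ≠ 0} := by
    intro s hs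
    obtain ⟨z, hz⟩ := hleb s hs
    exact hz.trans inter_subset_right
  set r : ℝ := lam / 2 with hr
  have hr0 : 0 < r := by positivity
  -- stage two: uniform images
  have hη : ∀ z : V n, ∃ η : ℝ, 0 < η ∧ (z ∈ K → Metric.ball (F z) η ⊆ F '' Metric.ball z (r / 2)) := by
    intro z
    by_cases h : z ∈ K
    · obtain ⟨e, he⟩ := exists_equiv hO hF (hKO h).1 (hKO h).2
      have h1 : F '' Metric.ball z (r / 2) ∈ 𝓝 (F z) := by
        rw [← he.map_nhds_eq_of_equiv]
        exact image_mem_map (Metric.ball_mem_nhds z (by positivity))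
      obtain ⟨η, h2, h3⟩ := Metric.mem_nhds_iff.1 h1
      exact ⟨η, h2, fun _ => h3⟩
    · exact ⟨1, one_pos, fun h1 => absurd h1 h⟩
  choose η hη1 hη2 using hη
  have hU : ∀ z ∈ K, Metric.ball z (r / 2) ∩ {s | F s ∈ Metric.ball (F z) (η z / 2)} ∈ 𝓝 z := by
    intro z hz
    apply inter_mem (Metric.ball_mem_nhds z (by positivity))
    have hc : ContinuousAt F z := hF.continuousOn.continuousAt (hO.mem_nhds (hKO hz).1)
    exact hc (Metric.ball_mem_nhds _ (by have := hη1 z; positivity))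
  obtain ⟨t, ht1, ht2⟩ := hK.elim_nhds_subcover _ hU
  obtain ⟨ε, hε, hεt⟩ := exists_lower t η hη1
  set ρ : ℝ := min ρ₀ (ε / 6) with hρ
  have hρ0 : 0 < ρ := lt_min hρ₀ (by positivity)
  have hρ6 : 6 * ρ ≤ ε := by
    have := min_le_right ρ₀ (ε / 6)
    rw [← hρ] at this
    linarith
  have hsol : ∀ s ∈ K, ∀ x ∈ Metric.ball (F s) (3 * ρ), ∃ w ∈ Metric.ball s r, F w = x := by
    intro s hs x hx
    obtain ⟨z, hz, hsz⟩ := mem_iUnion₂.1 (ht2 hs)
    have h1 : x ∈ Metric.ball (F z) (η z) := by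
      rw [Metric.mem_ball] at hx ⊢
      have h2 : dist (F s) (F z) < η z / 2 := hsz.2
      have h3 := hεt z hz
      calc dist x (F z) ≤ dist x (F s) + dist (F s) (F z) := dist_triangle _ _ _
        _ < η z := by linarith
    obtain ⟨w, hw, hwx⟩ := hη2 z (ht1 z hz) h1
    refine ⟨w, ?_, hwx⟩
    rw [Metric.mem_ball] at hw ⊢
    have h4 : dist s z < r / 2 := hsz.1
    calc dist w s ≤ dist w z + dist z s := dist_triangle _ _ _
      _ < r := by rw [dist_comm z s]; linarith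
  choose! g hg1 hg2 using hsol
  have hball : ∀ s : V n, Metric.ball s r ⊆ Metric.ball s lam := fun s =>
    Metric.ball_subset_ball (by rw [hr]; linarith)
  refine ⟨ρ, r, g, hρ0, min_le_left _ _, hr0, ?_, ?_⟩
  · intro s hs
    have : 2 * r = lam := by rw [hr]; ring
    rw [this]
    exact hinj s hs
  · intro s hs
    refine ⟨?_, ?_, ?_⟩
    · exact diff_inverse hO hF ((hinj s hs).mono (hball s)) ((hball s).trans (hsub s hs))
        Metric.isOpen_ball (hg1 s hs) (hg2 s hs)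
    · have hc : F s ∈ Metric.ball (F s) (3 * ρ) := Metric.mem_ball_self (by positivity)
      exact hinj s hs (hball s (hg1 s hs _ hc)) (Metric.mem_ball_self hlam) (hg2 s hs _ hc)
    · intro x hx
      exact ⟨(hsub s hs (hball s (hg1 s hs x hx))).1, hg1 s hs x hx, hg2 s hs x hx⟩

end Pool.Agent.H65.VG
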