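import Mathlib
import Pool.Agent.H95.VG.Targets2

/-!
# VG, module GRI, part b: unfolding over a square lattice
-/

open MeasureTheory Set Filter Topology
open scoped ENNReal NNReal ContDiff

namespace Pool.Agent.H65.VG

open Pool.Agent.H95.VG

variable {n : ℕ}

/-- lattice vectors of mesh `a` -/
noncomputable def lat (a : ℝ) (g : Fin n → ℤ × ℤ) : V n := fun i =>
  (⟨a * (g i).1, a * (g i).2⟩ : ℂ)

/-- integer part -/
noncomputable def flr (a : ℝ) (y : V n) : Fin n → ℤ × ℤ := fun i => (⌊(y i).re / a⌋, ⌊(y i).im / a⌋)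

lemma flr_add (a : ℝ) (ha : 0 < a) (y : V n) (g : Fin n → ℤ × ℤ) :
    flr a (y + lat a g) = flr a y + g := by
  funext i
  apply Prod.ext
  · simp only [flr, lat, Pi.add_apply, Complex.add_re, Prod.fst_add]
    rw [add_div, mul_div_cancel_left₀ _ ha.ne', Int.floor_add_intCast]
  · simp only [flr, lat, Pi.add_apply, Complex.add_im, Prod.snd_add]
    rw [add_div, mul_div_cancel_left₀ _ ha.ne', Int.floor_add_intCast]

lemma lat_injective (a : ℝ) (ha : 0 < a) : Function.Injective (lat (n := n) a) := by
  intro g g' h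
  have h1 := flr_add a ha 0 g
  have h2 := flr_add a ha 0 g'
  rw [h] at h1
  exact add_left_cancel (h1.symm.trans h2)

lemma lat_dist (a : ℝ) (ha : 0 < a) (g g' : Fin n → ℤ × ℤ) (h : g ≠ g') (y : V n) :
    a ≤ dist (y + lat a g) (y + lat a g') := by
  obtain ⟨i, hi⟩ := Function.ne_iff.1 h
  rw [dist_add_left]
  refine le_trans ?_ (dist_le_pi_dist _ _ i)
  rw [Complex.dist_eq]
  have key : ∀ p q : ℤ, p ≠ q → a ≤ |a * p - a * q| := by
    intro p q hpq
    rw [← mul_sub, abs_mul, abs_of_pos ha]
    have h1 : (1 : ℝ) ≤ |(p : ℝ) - q| := by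
      have h2 : 1 ≤ |p - q| := Int.one_le_abs (sub_ne_zero.2 hpq)
      exact_mod_cast h2
    nlinarith
  by_cases h1 : (g i).1 = (g' i).1
  · have h2 : (g i).2 ≠ (g' i).2 := fun h2 => hi (Prod.ext h1 h2)
    refine (key _ _ h2).trans ?_
    have := Complex.abs_im_le_norm (lat a g i - lat a g' i)
    simpa [lat] using this
  · refine (key _ _ h1).trans ?_
    have := Complex.abs_re_le_norm (lat a g i - lat a g' i)
    simpa [lat] using this

lemma measurable_flr (a : ℝ) : Measurable (flr (n := n) a) := by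
  apply measurable_pi_lambda
  intro i
  apply Measurable.prodMk
  · exact Int.measurable_floor.comp ((Complex.measurable_re.comp (measurable_pi_apply i)).div_const a)
  · exact Int.measurable_floor.comp ((Complex.measurable_im.comp (measurable_pi_apply i)).div_const a)

/-- unfolding -/
lemma unfold_lattice (a : ℝ) (ha : 0 < a) (N : V n → ℝ≥0∞) (hN : Measurable N) :
    ∫⁻ y, N y = ∫⁻ y in flr a ⁻¹' {0}, ∑' g : Fin n → ℤ × ℤ, N (y + lat a g) := by
  have h1 : ∫⁻ y, N y = ∑' g : Fin n → ℤ × ℤ, ∫⁻ y in flr a ⁻¹' {g}, N y := by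
    rw [← lintegral_iUnion (fun g => measurable_flr a (measurableSet_singleton g))]
    · have hu : (⋃ g : Fin n → ℤ × ℤ, flr (n := n) a ⁻¹' {g}) = univ := by
        apply eq_univ_of_forall
        intro y
        exact mem_iUnion.2 ⟨flr a y, rfl⟩
      rw [hu, setLIntegral_univ]
    · intro g g' hgg'
      exact Disjoint.preimage _ (disjoint_singleton.2 hgg')
  rw [h1, lintegral_tsum]
  · refine tsum_congr fun g => ?_
    have hmp : MeasurePreserving (fun y : V n => y + lat a g) volume volume :=
      measurePreserving_add_right volume (lat a g)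
    have hemb : MeasurableEmbedding (fun y : V n => y + lat a g) :=
      measurableEmbedding_addRight (lat a g)
    rw [← hmp.setLIntegral_comp_preimage_emb hemb]
    congr 2
    ext y
    simp only [mem_preimage, mem_singleton_iff]
    rw [flr_add a ha]
    constructor
    · intro h
      exact add_eq_right.1 h
    · intro h
      rw [h, zero_add]
  · intro g
    exact (hN.comp (measurable_add_const _)).aemeasurable

lemma volume_cell (a : ℝ) (ha : 0 < a) :
    volume (flr (n := n) a ⁻¹' {0}) = ENNReal.ofReal (a ^ (2 * n)) := by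
  have h1 : (flr (n := n) a ⁻¹' {0}) = Set.pi univ
      (fun _ : Fin n => Complex.measurableEquivRealProd ⁻¹' (Ico 0 a ×ˢ Ico 0 a)) := by
    ext y
    simp only [mem_preimage, mem_singleton_iff, mem_univ_pi, mem_prod,
      Complex.measurableEquivRealProd_apply]
    rw [funext_iff]
    refine forall_congr' fun i => ?_
    simp only [flr, Pi.zero_apply]
    rw [Prod.ext_iff]
    simp only [Prod.fst_zero, Prod.snd_zero, Int.floor_eq_zero_iff, mem_Ico]
    constructor
    · rintro ⟨⟨h1, h2⟩, h3, h4⟩
      rw [div_lt_one ha] at h2 h4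
      refine ⟨⟨?_, h2⟩, ?_, h4⟩
      · have := mul_nonneg h1 ha.le
        rwa [div_mul_cancel₀ _ ha.ne'] at this
      · have := mul_nonneg h3 ha.le
        rwa [div_mul_cancel₀ _ ha.ne'] at this
    · rintro ⟨⟨h1, h2⟩, h3, h4⟩
      rw [div_lt_one ha, div_lt_one ha]
      exact ⟨⟨div_nonneg h1 ha.le, h2⟩, div_nonneg h3 ha.le, h4⟩
  rw [h1, volume_pi_pi]
  have h2 : volume (Complex.measurableEquivRealProd ⁻¹' (Ico (0 : ℝ) a ×ˢ Ico (0 : ℝ) a))
      = ENNReal.ofReal (a ^ 2) := by
    rw [Complex.volume_preserving_equiv_real_prod.measure_preimage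
      ((measurableSet_Ico.prod measurableSet_Ico).nullMeasurableSet)]
    rw [Measure.volume_eq_prod, Measure.prod_prod, Real.volume_Ico, sub_zero,
      ← ENNReal.ofReal_mul ha.le, sq]
  simp_rw [h2]
  rw [Finset.prod_const, Finset.card_univ, Fintype.card_fin, ← ENNReal.ofReal_pow (by positivity),
    ← pow_mul]

end Pool.Agent.H65.VG
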