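import Mathlib
import Pool.Agent.H65.VG.GRIa
import Pool.Agent.H65.VG.GRIb

/-!
# VG, module GRI: from the number of sheets to the volume, by averaging over grids
-/

open MeasureTheory Set Filter Topology
open scoped ENNReal NNReal ContDiff

namespace Pool.Agent.H65.VG

open Pool.Agent.H95.VG

variable {n : ℕ}

/-- the bound on the number of points of a compact set over a lattice -/
lemma lattice_bound {O : Set (V n)} {F : V n → V n} {C ρ₀ : ℝ}
    (hsh : ∀ (ρ : ℝ) (S : Finset (V n)) (G : V n → V n → V n),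
      0 < ρ → ρ ≤ ρ₀ → Sheets O F ρ S G → (S.card : ℝ) * ρ ^ (2 * n) ≤ C)
    {K : Set (V n)} (hKO : K ⊆ {z ∈ O | F z ∈ Metric.closedBall 0 1})
    {ρ r : ℝ} {G : V n → V n → V n} (hρ : 0 < ρ) (hρ' : ρ ≤ ρ₀)
    (hinj : ∀ s ∈ K, InjOn F (Metric.ball s (2 * r)))
    (hG : ∀ s ∈ K, DifferentiableOn ℂ (G s) (Metric.ball (F s) (3 * ρ)) ∧ G s (F s) = s ∧
        ∀ x ∈ Metric.ball (F s) (3 * ρ), G s x ∈ O ∧ G s x ∈ Metric.ball s r ∧ F (G s x) = x)
    (y : V n) (S : Finset (V n)) (hS : ∀ s ∈ S, s ∈ K ∧ ∃ g, F s = y + lat (8 * ρ) g) :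
    (S.card : ℝ) * ρ ^ (2 * n) ≤ C := by
  apply hsh ρ S G hρ hρ'
  refine ⟨?_, ?_⟩
  · intro s hs
    obtain ⟨h1, _⟩ := hS s hs
    obtain ⟨h2, h3, h4⟩ := hG s h1
    exact ⟨(hKO h1).1, (hKO h1).2, h2, h3, fun x hx => ⟨(h4 x hx).1, (h4 x hx).2.2⟩⟩
  · intro s hs s' hs' hne
    obtain ⟨h1, g, hg⟩ := hS s hs
    obtain ⟨h1', g', hg'⟩ := hS s' hs'
    rw [Set.disjoint_left]
    rintro z ⟨x, hx, rfl⟩ ⟨x', hx', hzx'⟩
    have hsub : Metric.ball (F s) (2 * ρ) ⊆ Metric.ball (F s) (3 * ρ) :=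
      Metric.ball_subset_ball (by linarith)
    have hsub' : Metric.ball (F s') (2 * ρ) ⊆ Metric.ball (F s') (3 * ρ) :=
      Metric.ball_subset_ball (by linarith)
    obtain ⟨_, h2, h3⟩ := (hG s h1).2.2 x (hsub hx)
    obtain ⟨_, h2', h3'⟩ := (hG s' h1').2.2 x' (hsub' hx')
    have hxx : x = x' := by
      rw [← h3, ← h3', hzx']
    subst hxx
    have hd : dist (F s) (F s') < 8 * ρ := by
      rw [Metric.mem_ball] at hx hx'
      calc dist (F s) (F s') ≤ dist (F s) x + dist x (F s') := dist_triangle _ _ _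
        _ < 8 * ρ := by rw [dist_comm (F s) x]; linarith
    have hgg : g = g' := by
      by_contra h
      have := lat_dist (8 * ρ) (by positivity) g g' h y
      rw [← hg, ← hg'] at this
      linarith
    have hFF : F s = F s' := by rw [hg, hg', hgg]
    rw [hzx'] at h2'
    have hr : 0 < r := Metric.pos_of_mem_ball h2
    have hss : s' ∈ Metric.ball s (2 * r) := by
      rw [Metric.mem_ball] at h2 h2' ⊢
      calc dist s' s ≤ dist s' (G s x) + dist (G s x) s := dist_triangle _ _ _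
        _ < 2 * r := by rw [dist_comm s' _]; linarith
    exact hne (hinj s h1 (Metric.mem_ball_self (by positivity)) hss hFF)

/-- the volume bound for a compact piece of the regular set -/
lemma compact_bound {O : Set (V n)} {F : V n → V n} {C ρ₀ : ℝ} (hO : IsOpen O)
    (hF : DifferentiableOn ℂ F O) (hρ₀ : 0 < ρ₀)
    (hsh : ∀ (ρ : ℝ) (S : Finset (V n)) (G : V n → V n → V n),
      0 < ρ → ρ ≤ ρ₀ → Sheets O F ρ S G → (S.card : ℝ) * ρ ^ (2 * n) ≤ C)
    {K : Set (V n)} (hK : IsCompact K)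
    (hKO : K ⊆ {z ∈ O | F z ∈ Metric.closedBall 0 1 ∧ (jac F z).det ≠ 0}) :
    ∫⁻ z in K, ENNReal.ofReal (‖(jac F z).det‖ ^ 2) ≤ ENNReal.ofReal (8 ^ (2 * n) * C) := by
  classical
  have hC : 0 ≤ C := by
    have := hsh ρ₀ ∅ (fun _ z => z) hρ₀ le_rfl ⟨by simp, by simp⟩
    simpa using this
  obtain ⟨ρ, r, G, hρ, hρ', hr, hinj, hG⟩ := exists_inverses hO hF hK
    (fun z hz => ⟨(hKO hz).1, (hKO hz).2.2⟩) ρ₀ hρ₀
  obtain ⟨hm, hi, _⟩ := are n O K F (fun _ => 1) hO hF hK.measurableSet (fun z hz => (hKO hz).1)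
    measurable_const
  have ha : (0 : ℝ) < 8 * ρ := by positivity
  have hbd : ∀ y, ∑' g : Fin n → ℤ × ℤ, ∑' z : {z // z ∈ K ∧ F z = y + lat (8 * ρ) g ∧ (jac F z).det ≠ 0},
      (1 : ℝ≥0∞) ≤ ENNReal.ofReal (C / ρ ^ (2 * n)) := by
    intro y
    rw [← ENNReal.tsum_sigma' (f := fun _ : (Σ g : Fin n → ℤ × ℤ,
      {z // z ∈ K ∧ F z = y + lat (8 * ρ) g ∧ (jac F z).det ≠ 0}) => (1 : ℝ≥0∞))]
    refine Summable.tsum_le_of_sum_le ENNReal.summable fun s => ?_
    set S : Finset (V n) := s.image (fun p => p.2.1) with hSdef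
    have hcard : S.card = s.card := by
      apply Finset.card_image_of_injOn
      rintro ⟨g, z, hz⟩ _ ⟨g', z', hz'⟩ _ hzz
      simp only at hzz
      subst hzz
      have h1 : lat (8 * ρ) g = lat (8 * ρ) g' := by
        have := hz.2.1.symm.trans hz'.2.1
        exact add_left_cancel this
      have h2 := lat_injective _ ha h1
      subst h2
      rfl
    have h1 : (S.card : ℝ) * ρ ^ (2 * n) ≤ C := by
      apply lattice_bound hsh (fun z hz => ⟨(hKO hz).1, (hKO hz).2.1⟩) hρ hρ' hinj hG y S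
      intro z hz
      obtain ⟨p, hp, rfl⟩ := Finset.mem_image.1 hz
      exact ⟨p.2.2.1, p.1, p.2.2.2.1⟩
    rw [Finset.sum_const, nsmul_eq_mul, mul_one, ← hcard]
    rw [← ENNReal.ofReal_natCast]
    apply ENNReal.ofReal_le_ofReal
    rw [le_div_iff₀ (by positivity)]
    exact h1
  calc ∫⁻ z in K, ENNReal.ofReal (‖(jac F z).det‖ ^ 2)
      = ∫⁻ z in K, 1 * ENNReal.ofReal (‖(jac F z).det‖ ^ 2) := by simp_rw [one_mul]
    _ = ∫⁻ y, ∑' z : {z // z ∈ K ∧ F z = y ∧ (jac F z).det ≠ 0}, (1 : ℝ≥0∞) := hi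
    _ = ∫⁻ y in flr (8 * ρ) ⁻¹' {0}, ∑' g : Fin n → ℤ × ℤ,
          ∑' z : {z // z ∈ K ∧ F z = y + lat (8 * ρ) g ∧ (jac F z).det ≠ 0}, (1 : ℝ≥0∞) :=
        unfold_lattice (8 * ρ) ha _ hm
    _ ≤ ∫⁻ y in flr (8 * ρ) ⁻¹' {0}, ENNReal.ofReal (C / ρ ^ (2 * n)) :=
        lintegral_mono fun y => hbd y
    _ = ENNReal.ofReal (C / ρ ^ (2 * n)) * ENNReal.ofReal ((8 * ρ) ^ (2 * n)) := by
        rw [setLIntegral_const, volume_cell _ ha]
    _ = ENNReal.ofReal (8 ^ (2 * n) * C) := by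
        rw [← ENNReal.ofReal_mul (by positivity)]
        congr 1
        rw [mul_pow]
        field_simp

theorem gri : T_GRI := by
  intro n O F C ρ₀ hO hF hρ₀ hsh
  have hreg := isOpen_reg hO hF
  obtain ⟨P, hP1, hP2, hP3, hP4⟩ := hreg.exists_iUnion_isClosed
  have hcont : ContinuousOn F {z ∈ O | (jac F z).det ≠ 0} :=
    hF.continuousOn.mono (fun z hz => hz.1)
  set Q : ℕ → Set (V n) := fun m => (P m ∩ F ⁻¹' Metric.closedBall 0 1) ∩ Metric.closedBall 0 m with hQ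
  have hQc : ∀ m, IsCompact (Q m) := by
    intro m
    apply (isCompact_closedBall (0 : V n) m).inter_left
    exact (hcont.mono (hP2 m)).preimage_isClosed_of_isClosed (hP1 m) Metric.isClosed_closedBall
  have hQmono : Monotone Q := by
    intro m m' h z hz
    exact ⟨⟨hP4 h hz.1.1, hz.1.2⟩, Metric.closedBall_subset_closedBall (by exact_mod_cast h) hz.2⟩
  have hQu : (⋃ m, Q m) = {z ∈ O | F z ∈ Metric.closedBall 0 1 ∧ (jac F z).det ≠ 0} := by
    ext z
    constructor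
    · intro hz
      obtain ⟨m, hm⟩ := mem_iUnion.1 hz
      have h1 := hP2 m hm.1.1
      exact ⟨h1.1, hm.1.2, h1.2⟩
    · rintro ⟨h1, h2, h3⟩
      have h4 : z ∈ ⋃ m, P m := by
        rw [hP3]
        exact ⟨h1, h3⟩
      obtain ⟨m, hm⟩ := mem_iUnion.1 h4
      obtain ⟨m', hm'⟩ := exists_nat_ge ‖z‖
      refine mem_iUnion.2 ⟨max m m', ⟨hP4 (le_max_left _ _) hm, h2⟩, ?_⟩
      rw [Metric.mem_closedBall, dist_zero_right]
      calc ‖z‖ ≤ m' := hm'
        _ ≤ ((max m m' : ℕ) : ℝ) := by exact_mod_cast le_max_right _ _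
  have hmeas : MeasurableSet (⋃ m, Q m) := MeasurableSet.iUnion fun m => (hQc m).measurableSet
  have h1 : ∫⁻ z in {z ∈ O | F z ∈ Metric.closedBall 0 1}, ENNReal.ofReal (‖(jac F z).det‖ ^ 2)
      ≤ ∫⁻ z in ⋃ m, Q m, ENNReal.ofReal (‖(jac F z).det‖ ^ 2) := by
    have hm2 : MeasurableSet {z ∈ O | F z ∈ Metric.closedBall 0 1} := by
      have h2 : IsOpen (O ∩ F ⁻¹' (Metric.closedBall 0 1)ᶜ) :=
        hF.continuousOn.isOpen_inter_preimage hO Metric.isClosed_closedBall.isOpen_compl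
      have h3 : {z ∈ O | F z ∈ Metric.closedBall 0 1} = O \ (O ∩ F ⁻¹' (Metric.closedBall 0 1)ᶜ) := by
        ext z
        constructor
        · rintro ⟨h4, h5⟩
          exact ⟨h4, fun h6 => h6.2 h5⟩
        · rintro ⟨h4, h5⟩
          refine ⟨h4, ?_⟩
          by_contra h6
          exact h5 ⟨h4, h6⟩
      rw [h3]
      exact hO.measurableSet.diff h2.measurableSet
    rw [← lintegral_indicator hm2, ← lintegral_indicator hmeas]
    apply lintegral_mono
    intro z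
    simp only
    by_cases hz : z ∈ {z ∈ O | F z ∈ Metric.closedBall 0 1}
    · rw [indicator_of_mem hz]
      by_cases hd : (jac F z).det = 0
      · rw [hd]
        simp
      · have h4 : z ∈ ⋃ m, Q m := by
          rw [hQu]
          exact ⟨hz.1, hz.2, hd⟩
        rw [indicator_of_mem h4]
    · rw [indicator_of_notMem hz]
      exact bot_le
  refine h1.trans ?_
  rw [setLIntegral_iUnion_of_directed _ (hQmono.directed_le)]
  apply iSup_le
  intro m
  apply compact_bound hO hF hρ₀ hsh (hQc m)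
  rw [← hQu]
  exact subset_iUnion Q m

end Pool.Agent.H65.VG
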